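import Pool.Agent.U527.Et.Fin

set_option autoImplicit false

/-!
The exceptional set for fixed functions, arbitrary probability spaces.
-/

namespace Pool.Agent.U527.Et

open MeasureTheory Filter Finset
open Pool.Agent.Y957.MC (IsFlow exists_version)
open Pool.Agent.U587.ET (gs er gs_meas gs_bd gs_lip er_L1 sub_gs er_meas er_bd)
open Pool.Agent.U587.DX (Sg)
open scoped ENNReal NNReal Topology

universe u

variable {X : Type u} [mX : MeasurableSpace X] {μ : Measure X}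

/-- one polynomial, fixed functions -/
theorem main_fix [IsProbabilityMeasure μ] {m : ℕ} {τ : Fin m → ℝ → X → X}
    (hτ : ∀ j, IsFlow μ (τ j)) (P : Polynomial ℝ) (hd : 0 < P.natDegree) (hl : 0 < P.leadingCoeff)
    {f : Fin m → X → ℂ} (hf : ∀ j, AEStronglyMeasurable (f j) μ) (hfb : ∀ j, ∃ C : ℝ, ∀ᵐ x ∂μ, ‖f j x‖ ≤ C) :
    ∃ D : Set ℝ, dimH D ≤ dm P.natDegree ∧ ∀ a : ℝ, 0 < a → a ∉ D →
        (∀ j, Sg μ (τ j) P a) → ∀ᵐ x ∂μ, ∀ L : ℂ,
          Tendsto (fun N : ℕ => di P (fun v => ∏ j, f j (τ j v x)) a N) atTop (𝓝 L) ↔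
            Tendsto (fun V : ℝ => ci (fun v => ∏ j, f j (τ j v x)) V) atTop (𝓝 L) := by
  choose g hgm hgb hfg using fun j => exists_version (hf j) (hfb j)
  choose C hC using hgb
  obtain ⟨R, hR⟩ : ∃ R : ℝ, R = 4 * (∑ j, |C j| + 1) := ⟨_, rfl⟩
  have hR0 : 0 < R := by
    rw [hR]
    have : 0 ≤ ∑ j, |C j| := Finset.sum_nonneg fun j _ => abs_nonneg _
    linarith
  have hRc : (R : ℂ) ≠ 0 := by exact_mod_cast hR0.ne'
  have hgR : ∀ j x, ‖g j x / (R : ℂ)‖ ≤ 1 / 2 := by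
    intro j x
    rw [norm_div, Complex.norm_real, Real.norm_of_nonneg hR0.le, div_le_iff₀ hR0]
    have h1 := (hC j x).trans (le_abs_self _)
    have h2 : |C j| ≤ ∑ j, |C j| :=
      Finset.single_le_sum (f := fun j => |C j|) (fun i _ => abs_nonneg _) (Finset.mem_univ j)
    have h3 := abs_nonneg (C j)
    rw [hR]
    linarith
  have hgRm : ∀ j, Measurable fun x => g j x / (R : ℂ) := fun j => (hgm j).div_const _
  have hpos : ∀ k : ℕ, 0 < 1 / ((k : ℝ) + 1) := fun k => by positivity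
  obtain ⟨F, hF⟩ : ∃ F : ℕ → Fin m → X → ℂ, ∀ i j, F i j = gs (τ j) (fun x => g j x / (R : ℂ)) (1 / ((i : ℝ) + 1)) :=
    ⟨_, fun i j => rfl⟩
  have hFm : ∀ i j, Measurable (F i j) := fun i j => by rw [hF]; exact gs_meas (hτ j) (hgRm j) (hpos i)
  have hF1 : ∀ i j x, ‖F i j x‖ ≤ 1 := fun i j x => by rw [hF]; exact gs_bd (hgR j) (hpos i) x
  have hFL : ∀ i j, ∃ L : ℝ, ∀ u v x, ‖F i j (τ j u x) - F i j (τ j v x)‖ ≤ L * |u - v| := fun i j =>
    ⟨2 / (1 / ((i : ℝ) + 1)), fun u v x => by rw [hF]; exact gs_lip (hτ j) (hgRm j) (hgR j) (hpos i) x u v⟩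
  have hlim : ∀ j, Tendsto (fun i => ∫ x, ‖g j x / (R : ℂ) - F i j x‖ ∂μ) atTop (𝓝 0) := by
    intro j
    refine squeeze_zero (fun i => integral_nonneg fun x => norm_nonneg _) (fun i => ?_) (er_L1 (hτ j) (hgRm j) (hgR j))
    refine integral_mono_of_nonneg (ae_of_all _ fun x => norm_nonneg _) ?_ (ae_of_all _ fun x => ?_)
    · refine Integrable.of_bound (C := 2) (er_meas (hτ j) (hgRm j) (hpos i)).aestronglyMeasurable
        (ae_of_all _ fun x => ?_)
      have := er_bd (τ := τ j) (hgR j) (hpos i) x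
      rw [Real.norm_of_nonneg this.1]
      exact this.2
    · simp only [hF]
      exact sub_gs (τ := τ j) (f := fun x => g j x / (R : ℂ)) _ x
  have hrw : ∀ x, (fun v => ∏ j, g j (τ j v x)) = fun v => (R : ℂ) ^ m * ∏ j, (g j (τ j v x) / (R : ℂ)) := by
    intro x
    funext v
    rw [Finset.prod_div_distrib]
    simp only [Finset.prod_const, Finset.card_univ, Fintype.card_fin]
    field_simp
  refine ⟨⋃ i : ℕ, {a : ℝ | 0 < a ∧ ¬ Good' μ P (fun x v => ∏ j, F i j (τ j v x)) a}, ?_, ?_⟩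
  · rw [dimH_iUnion]
    refine iSup_le fun i => ?_
    obtain ⟨K, hK⟩ := nc_prod hτ (hFm i) (hF1 i) (hFL i)
    exact bad_pos hK hd hl
  intro a ha0 haD hS
  have hgood : ∀ i, Good' μ P (fun x v => ∏ j, F i j (τ j v x)) a := by
    intro i
    by_contra hne
    exact haD (Set.mem_iUnion.2 ⟨i, ha0, hne⟩)
  have h1 := tr_ae (μ := μ) hτ hd hl ha0 hS hgRm (fun j x => (hgR j x).trans (by norm_num))
    (g := F) hFm hF1 hFL hlim hgood
  filter_upwards [h1, vers hτ hfg P a] with x hx hv L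
  have hRm : (R : ℂ) ^ m ≠ 0 := pow_ne_zero _ hRc
  have e1 : (fun N : ℕ => di P (fun v => ∏ j, f j (τ j v x)) a N) =
      fun N : ℕ => (R : ℂ) ^ m * di P (fun v => ∏ j, (g j (τ j v x) / (R : ℂ))) a N := by
    funext N
    rw [hv.1 N, hrw x, di_smul]
  have e2 : (fun V : ℝ => ci (fun v => ∏ j, f j (τ j v x)) V) =
      fun V : ℝ => (R : ℂ) ^ m * ci (fun v => ∏ j, (g j (τ j v x) / (R : ℂ))) V := by
    funext V
    rw [hv.2.2 V, hrw x, ci_smul]
  have e3 : ∀ {α : Type} {l : Filter α} {u : α → ℂ}, Tendsto (fun t => (R : ℂ) ^ m * u t) l (𝓝 L) ↔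
      Tendsto u l (𝓝 (((R : ℂ) ^ m)⁻¹ * L)) := by
    intro α l u
    constructor
    · intro h
      have h3 := h.const_mul (((R : ℂ) ^ m)⁻¹)
      refine h3.congr fun t => ?_
      rw [← mul_assoc, inv_mul_cancel₀ hRm, one_mul]
    · intro h
      have h3 := h.const_mul ((R : ℂ) ^ m)
      rwa [← mul_assoc, mul_inv_cancel₀ hRm, one_mul] at h3
  rw [e1, e2, e3, e3]
  exact hx _

end Pool.Agent.U527.Et
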