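import Mathlib

set_option autoImplicit false

/-!
Growth of a polynomial with positive leading coefficient.
-/

namespace Pool.Agent.U527.Et

open Filter Polynomial
open scoped Topology

lemma log_deriv_lim (P : Polynomial ℝ) (hd : 0 < P.natDegree) :
    Tendsto (fun x : ℝ => x * (P.derivative.eval x / P.eval x)) atTop (𝓝 (P.natDegree : ℝ)) := by
  have hP0 : P ≠ 0 := by
    rintro rfl
    simp at hd
  have hlc : P.leadingCoeff ≠ 0 := leadingCoeff_ne_zero.2 hP0
  have hdd : (derivative P).degree = ((P.natDegree - 1 : ℕ) : WithBot ℕ) := degree_derivative (by omega)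
  have hD0 : derivative P ≠ 0 := by
    intro h
    rw [h, degree_zero] at hdd
    exact absurd hdd.symm (by simp)
  have hnd : (derivative P).natDegree = P.natDegree - 1 := natDegree_eq_of_degree_eq_some hdd
  have hdeg : (X * derivative P).degree = P.degree := by
    rw [degree_mul, degree_X, hdd, degree_eq_natDegree hP0]
    norm_cast
    omega
  have hlead : (X * derivative P).leadingCoeff = P.natDegree * P.leadingCoeff := by
    rw [leadingCoeff_mul, leadingCoeff_X, one_mul, leadingCoeff, hnd, coeff_derivative]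
    have h1 : P.natDegree - 1 + 1 = P.natDegree := by omega
    rw [h1, coeff_natDegree]
    have h2 : ((P.natDegree - 1 : ℕ) : ℝ) + 1 = P.natDegree := by
      exact_mod_cast h1
    rw [h2, mul_comm]
  have h := div_tendsto_atTop_leadingCoeff_div_of_degree_eq (X * derivative P) P hdeg
  rw [hlead, mul_div_cancel_right₀ _ hlc] at h
  refine h.congr fun x => ?_
  rw [eval_mul, eval_X, mul_div_assoc]

lemma poly_grow (P : Polynomial ℝ) (hd : 0 < P.natDegree) (hl : 0 < P.leadingCoeff) :
    ∃ X1 : ℝ, 0 < (P.natDegree : ℝ) ∧ 1 ≤ X1 ∧ (∀ x, X1 ≤ x → 0 < P.eval x) ∧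
    ∀ u v, X1 ≤ u → u ≤ v →
      (P.natDegree : ℝ) / 2 * (Real.log v - Real.log u) ≤ Real.log (P.eval v) - Real.log (P.eval u) ∧
      Real.log (P.eval v) - Real.log (P.eval u) ≤ 2 * (P.natDegree : ℝ) * (Real.log v - Real.log u) := by
  have hd0 : 0 < (P.natDegree : ℝ) := by exact_mod_cast hd
  obtain ⟨d, hdd⟩ : ∃ d : ℝ, d = P.natDegree := ⟨_, rfl⟩
  rw [← hdd] at hd0 ⊢
  have h0 := log_deriv_lim P hd
  rw [← hdd] at h0
  have e1 : ∀ᶠ x : ℝ in atTop, d / 2 < x * (P.derivative.eval x / P.eval x) := h0.eventually_const_lt (by linarith)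
  have e2 : ∀ᶠ x : ℝ in atTop, x * (P.derivative.eval x / P.eval x) < 2 * d := h0.eventually_lt_const (by linarith)
  have e3 : ∀ᶠ x : ℝ in atTop, 0 < P.eval x :=
    (P.tendsto_atTop_of_leadingCoeff_nonneg (natDegree_pos_iff_degree_pos.1 hd) hl.le).eventually_gt_atTop 0
  obtain ⟨x₂, hx₂⟩ := eventually_atTop.1 ((e1.and e2).and e3)
  obtain ⟨X1, hX1⟩ : ∃ X1 : ℝ, X1 = max 1 x₂ := ⟨_, rfl⟩
  have b1 : 1 ≤ X1 := hX1 ▸ le_max_left _ _
  have b4 : x₂ ≤ X1 := hX1 ▸ le_max_right _ _
  refine ⟨X1, hd0, b1, fun x hx => (hx₂ x (b4.trans hx)).2, ?_⟩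
  have hder : ∀ x, X1 ≤ x → HasDerivAt (fun y => Real.log (P.eval y)) (P.derivative.eval x / P.eval x) x :=
    fun x hx => (P.hasDerivAt x).log (hx₂ x (b4.trans hx)).2.ne'
  have hder1 : ∀ c : ℝ, ∀ x, X1 ≤ x → HasDerivAt (fun y => Real.log (P.eval y) - c * Real.log y)
      (P.derivative.eval x / P.eval x - c * x⁻¹) x := by
    intro c x hx
    exact (hder x hx).sub ((Real.hasDerivAt_log (by linarith)).const_mul c)
  have hder2 : ∀ c : ℝ, ∀ x, X1 ≤ x → HasDerivAt (fun y => c * Real.log y - Real.log (P.eval y))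
      (c * x⁻¹ - P.derivative.eval x / P.eval x) x := by
    intro c x hx
    exact ((Real.hasDerivAt_log (by linarith)).const_mul c).sub (hder x hx)
  have m1 : MonotoneOn (fun y => Real.log (P.eval y) - d / 2 * Real.log y) (Set.Ici X1) := by
    refine monotoneOn_of_deriv_nonneg (convex_Ici X1)
      (fun x hx => (hder1 _ x hx).continuousAt.continuousWithinAt)
      (fun x hx => (hder1 _ x (interior_subset hx)).differentiableAt.differentiableWithinAt) ?_
    intro x hx
    have hx1 : X1 ≤ x := interior_subset hx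
    rw [(hder1 _ x hx1).deriv]
    have hx0 : 0 < x := by linarith
    have h1 := (hx₂ x (b4.trans hx1)).1.1
    have h2 : d / 2 * x⁻¹ ≤ P.derivative.eval x / P.eval x := by
      rw [← div_eq_mul_inv, div_le_iff₀ hx0]
      linarith
    linarith
  have m2 : MonotoneOn (fun y => 2 * d * Real.log y - Real.log (P.eval y)) (Set.Ici X1) := by
    refine monotoneOn_of_deriv_nonneg (convex_Ici X1)
      (fun x hx => (hder2 _ x hx).continuousAt.continuousWithinAt)
      (fun x hx => (hder2 _ x (interior_subset hx)).differentiableAt.differentiableWithinAt) ?_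
    intro x hx
    have hx1 : X1 ≤ x := interior_subset hx
    rw [(hder2 _ x hx1).deriv]
    have hx0 : 0 < x := by linarith
    have h1 := (hx₂ x (b4.trans hx1)).1.2
    have h2 : P.derivative.eval x / P.eval x ≤ 2 * d * x⁻¹ := by
      rw [← div_eq_mul_inv, le_div_iff₀ hx0]
      linarith
    linarith
  intro u v hu huv
  have h1 := m1 (show u ∈ Set.Ici X1 from hu) (show v ∈ Set.Ici X1 from hu.trans huv) huv
  have h2 := m2 (show u ∈ Set.Ici X1 from hu) (show v ∈ Set.Ici X1 from hu.trans huv) huv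
  simp only at h1 h2
  constructor <;> linarith

/-- bound for a polynomial on `[0, N]` -/
lemma poly_bd (P : Polynomial ℝ) : ∃ C : ℝ, 0 ≤ C ∧ ∀ N v : ℝ, 1 ≤ N → 0 ≤ v → v ≤ N →
    |P.eval v| ≤ C * N ^ P.natDegree := by
  refine ⟨∑ i ∈ Finset.range (P.natDegree + 1), |P.coeff i|, Finset.sum_nonneg fun i _ => abs_nonneg _,
    fun N v hN hv0 hvN => ?_⟩
  rw [Polynomial.eval_eq_sum_range, Finset.sum_mul]
  refine (Finset.abs_sum_le_sum_abs _ _).trans (Finset.sum_le_sum fun i hi => ?_)
  rw [abs_mul, abs_pow, abs_of_nonneg hv0]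
  rw [Finset.mem_range] at hi
  refine mul_le_mul_of_nonneg_left ?_ (abs_nonneg _)
  calc v ^ i ≤ N ^ i := pow_le_pow_left₀ hv0 hvN i
    _ ≤ N ^ P.natDegree := pow_le_pow_right₀ hN (by omega)

end Pool.Agent.U527.Et
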