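import Pool.Agent.U527.Et.Blk
import Pool.Agent.U527.Et.Grow
import Pool.Agent.Y448.MC.Detg
import Pool.Agent.U587.DX.Dim
import Pool.Agent.Y957.MC.Poly

set_option autoImplicit false

/-!
The exceptional times of the comparison of discrete and continuous averages along a polynomial have Hausdorff dimension
less than one: Lipschitz functions.
-/

namespace Pool.Agent.U527.Et

open MeasureTheory Filter Finset
open Pool.Agent.Y957.MC
open Pool.Agent.Y448.MC (GG GG_meas GG_norm sum_GG)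
open scoped ENNReal NNReal Topology

universe u

/-- the modulus of continuity of a Lipschitz function -/
lemma mod_lip {F : ℝ → ℂ} {L : ℝ} (hL : 0 ≤ L) (hF : ∀ u v, ‖F u - F v‖ ≤ L * |u - v|) {Λ : ℝ} (hΛ : 1 ≤ Λ) {M : ℝ}
    (hM : 1 ≤ M) : Mod Λ F (L * Real.exp Λ * 2 * Λ) M := by
  intro h h0 h1
  have hΛ0 : 0 ≤ Λ := by linarith
  have key : ‖∫ s in (0 : ℝ)..Λ, ‖F (M * Real.exp (s + h)) - F (M * Real.exp s)‖‖ ≤
      (L * (M * (Real.exp Λ * (2 * h)))) * |Λ - 0| := by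
    refine intervalIntegral.norm_integral_le_of_norm_le_const fun s hs => ?_
    rw [Set.uIoc_of_le hΛ0] at hs
    rw [norm_norm]
    refine (hF _ _).trans (mul_le_mul_of_nonneg_left ?_ hL)
    have e1 : M * Real.exp (s + h) - M * Real.exp s = M * (Real.exp s * (Real.exp h - 1)) := by
      rw [Real.exp_add]
      ring
    have h2 : 0 ≤ Real.exp h - 1 := by
      have := Real.add_one_le_exp h
      linarith
    have h3 : Real.exp h - 1 ≤ 2 * h := by
      have h4 : |Real.exp h - 1 - h| ≤ h ^ 2 := Real.abs_exp_sub_one_sub_id_le (by rw [abs_of_pos h0]; exact h1)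
      have h5 := (abs_le.1 h4).2
      nlinarith
    rw [e1, abs_of_nonneg (by positivity)]
    have h6 : Real.exp s ≤ Real.exp Λ := Real.exp_le_exp.2 hs.2
    gcongr
  have h8 : ‖∫ s in (0 : ℝ)..Λ, ‖F (M * Real.exp (s + h)) - F (M * Real.exp s)‖‖ =
      ∫ s in (0 : ℝ)..Λ, ‖F (M * Real.exp (s + h)) - F (M * Real.exp s)‖ := by
    rw [Real.norm_eq_abs, abs_of_nonneg]
    exact intervalIntegral.integral_nonneg hΛ0 fun s _ => norm_nonneg _
  rw [h8, sub_zero, abs_of_nonneg hΛ0] at key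
  refine key.trans (le_of_eq ?_)
  ring

section one

variable {X : Type u} [MeasurableSpace X] {μ : Measure X}

/-- the block average of the half differences -/
noncomputable def S (P : Polynomial ℝ) (Z : X → ℝ → ℂ) (j N : ℕ) (a : ℝ) (x : X) : ℂ :=
  (1 / (N : ℂ)) * ∑ n ∈ Ioc ⌊(1 / ((j : ℝ) + 1)) * (N : ℝ)⌋₊ N, GG (fun v => P.eval v) (Z x) n a

/-- its mean square -/
noncomputable def Ph (μ : Measure X) (P : Polynomial ℝ) (Z : X → ℝ → ℂ) (j N : ℕ) (a : ℝ) : ℝ :=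
  ∫ x, ‖S P Z j N a x‖ ^ 2 ∂μ

/-- bounded functions, measurable in both variables and Lipschitz in time -/
structure Nc (L : ℝ) (Z : X → ℝ → ℂ) : Prop where
  meas : Measurable fun q : X × ℝ => Z q.1 q.2
  bd : ∀ x v, ‖Z x v‖ ≤ 1
  lip0 : 0 ≤ L
  lip : ∀ x u v, ‖Z x u - Z x v‖ ≤ L * |u - v|

variable {P : Polynomial ℝ} {Z : X → ℝ → ℂ} {L : ℝ}

lemma Pm (P : Polynomial ℝ) : Measurable fun v : ℝ => P.eval v := P.continuous.measurable

lemma GG_joint (hZ : Nc L Z) (n : ℕ) : Measurable fun q : ℝ × X => GG (fun v => P.eval v) (Z q.2) n q.1 := by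
  unfold GG
  refine Measurable.const_mul ?_ _
  refine Measurable.sub ?_ ?_
  · exact hZ.meas.comp (measurable_snd.prodMk (measurable_fst.mul_const _))
  · have h1 : (fun q : ℝ × X => ∫ v in ((n : ℝ) - 1)..n, Z q.2 (q.1 * P.eval v)) =
        fun q : ℝ × X => ∫ v in Set.Ioc ((n : ℝ) - 1) n, Z q.2 (q.1 * P.eval v) := by
      funext q
      exact intervalIntegral.integral_of_le (by linarith)
    rw [h1]
    have h2 : StronglyMeasurable (fun r : (ℝ × X) × ℝ => Z r.1.2 (r.1.1 * P.eval r.2)) :=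
      (hZ.meas.comp ((measurable_snd.comp measurable_fst).prodMk
        ((measurable_fst.comp measurable_fst).mul ((Pm P).comp measurable_snd)))).stronglyMeasurable
    exact (h2.integral_prod_right' (ν := volume.restrict (Set.Ioc ((n : ℝ) - 1) n))).measurable

lemma S_joint (hZ : Nc L Z) (j N : ℕ) : Measurable fun q : ℝ × X => S P Z j N q.1 q.2 := by
  have h1 : ∀ n : ℕ, Measurable fun q : ℝ × X => GG (fun v => P.eval v) (Z q.2) n q.1 := fun n =>
    GG_joint (P := P) hZ n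
  have h2 : Measurable fun q : ℝ × X => ∑ n ∈ Ioc ⌊(1 / ((j : ℝ) + 1)) * (N : ℝ)⌋₊ N,
      GG (fun v => P.eval v) (Z q.2) n q.1 := Finset.measurable_sum _ fun n _ => h1 n
  exact h2.const_mul _

lemma S_meas (hZ : Nc L Z) (j N : ℕ) (a : ℝ) : Measurable (fun x => S P Z j N a x) := by
  have h : Measurable (Function.uncurry fun (a : ℝ) (x : X) => S P Z j N a x) := S_joint (P := P) hZ j N
  exact h.of_uncurry_left

lemma S_bd (hZ : Nc L Z) (j N : ℕ) (a : ℝ) (x : X) : ‖S P Z j N a x‖ ≤ 1 := by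
  unfold S
  rw [norm_mul, norm_div, norm_one, Complex.norm_natCast]
  rcases Nat.eq_zero_or_pos N with hN | hN
  · rw [hN]
    simp
  · have h1 : ‖∑ n ∈ Ioc ⌊(1 / ((j : ℝ) + 1)) * (N : ℝ)⌋₊ N, GG (fun v => P.eval v) (Z x) n a‖ ≤ N := by
      refine (norm_sum_le _ _).trans ?_
      refine (Finset.sum_le_sum fun n _ => GG_norm (hZ.bd x) n a).trans ?_
      rw [Finset.sum_const, Nat.card_Ioc, nsmul_eq_mul, mul_one]
      exact_mod_cast Nat.sub_le _ _
    have hN' : (0 : ℝ) < N := Nat.cast_pos.2 hN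
    rw [one_div, inv_mul_le_iff₀ hN', mul_one]
    exact h1

lemma GG_lip (hZ : Nc L Z) {C : ℝ} (hC : 0 ≤ C)
    (hP : ∀ N v : ℝ, 1 ≤ N → 0 ≤ v → v ≤ N → |P.eval v| ≤ C * N ^ P.natDegree) {n N : ℕ} (hn : 1 ≤ n) (hnN : n ≤ N)
    (a b : ℝ) (x : X) :
    ‖GG (fun v => P.eval v) (Z x) n a - GG (fun v => P.eval v) (Z x) n b‖ ≤
      L * (C * (N : ℝ) ^ P.natDegree) * |a - b| := by
  obtain ⟨E, hE⟩ : ∃ E : ℝ, E = L * (C * (N : ℝ) ^ P.natDegree) * |a - b| := ⟨_, rfl⟩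
  have hN1 : (1 : ℝ) ≤ N := by exact_mod_cast hn.trans hnN
  have hnN' : (n : ℝ) ≤ N := by exact_mod_cast hnN
  have hn1 : (1 : ℝ) ≤ n := by exact_mod_cast hn
  have hpt : ∀ v : ℝ, 0 ≤ v → v ≤ N → ‖Z x (a * P.eval v) - Z x (b * P.eval v)‖ ≤ E := by
    intro v hv0 hvN
    refine (hZ.lip x _ _).trans ?_
    rw [← sub_mul, abs_mul, hE, mul_assoc L, mul_comm (C * _)]
    exact mul_le_mul_of_nonneg_left (mul_le_mul_of_nonneg_left (hP N v hN1 hv0 hvN) (abs_nonneg _)) hZ.lip0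
  rw [← hE]
  have hi : ∀ c : ℝ, IntervalIntegrable (fun v => Z x (c * P.eval v)) volume ((n : ℝ) - 1) n := by
    intro c
    refine (intervalIntegrable_const (c := (1 : ℝ))).mono_fun ?_ (ae_of_all _ fun v => ?_)
    · exact (hZ.meas.comp (measurable_const.prodMk ((Pm P).const_mul c))).aestronglyMeasurable
    · rw [norm_one]
      exact hZ.bd _ _
  have h1 : GG (fun v => P.eval v) (Z x) n a - GG (fun v => P.eval v) (Z x) n b =
      (1 / 2 : ℂ) * ((Z x (a * P.eval (n : ℝ)) - Z x (b * P.eval (n : ℝ))) -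
        ∫ v in ((n : ℝ) - 1)..n, (Z x (a * P.eval v) - Z x (b * P.eval v))) := by
    unfold GG
    rw [intervalIntegral.integral_sub (hi a) (hi b)]
    ring
  have h2 : ‖∫ v in ((n : ℝ) - 1)..n, (Z x (a * P.eval v) - Z x (b * P.eval v))‖ ≤ E * |(n : ℝ) - ((n : ℝ) - 1)| := by
    refine intervalIntegral.norm_integral_le_of_norm_le_const fun v hv => ?_
    rw [Set.uIoc_of_le (by linarith)] at hv
    exact hpt v (by linarith [hv.1]) (hv.2.trans hnN')
  have h3 : |(n : ℝ) - ((n : ℝ) - 1)| = 1 := by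
    rw [sub_sub_cancel, abs_one]
  rw [h3, mul_one] at h2
  rw [h1, norm_mul]
  have h4 : ‖(1 / 2 : ℂ)‖ = 1 / 2 := by norm_num
  rw [h4]
  have h5 := norm_sub_le (Z x (a * P.eval (n : ℝ)) - Z x (b * P.eval (n : ℝ)))
    (∫ v in ((n : ℝ) - 1)..n, (Z x (a * P.eval v) - Z x (b * P.eval v)))
  have h6 := hpt n (by linarith) hnN'
  linarith

lemma S_lip (hZ : Nc L Z) {C : ℝ} (hC : 0 ≤ C)
    (hP : ∀ N v : ℝ, 1 ≤ N → 0 ≤ v → v ≤ N → |P.eval v| ≤ C * N ^ P.natDegree) (j N : ℕ) (a b : ℝ) (x : X) :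
    ‖S P Z j N a x - S P Z j N b x‖ ≤ L * (C * (N : ℝ) ^ P.natDegree) * |a - b| := by
  have hL := hZ.lip0
  unfold S
  rw [← mul_sub, ← sum_sub_distrib, norm_mul, norm_div, norm_one, Complex.norm_natCast]
  rcases Nat.eq_zero_or_pos N with hN | hN
  · rw [hN]
    simp only [Nat.cast_zero, div_zero, zero_mul]
    positivity
  · have hN' : (0 : ℝ) < N := Nat.cast_pos.2 hN
    rw [one_div, inv_mul_le_iff₀ hN']
    refine (norm_sum_le _ _).trans ?_
    calc _ ≤ ∑ n ∈ Ioc ⌊(1 / ((j : ℝ) + 1)) * (N : ℝ)⌋₊ N, L * (C * (N : ℝ) ^ P.natDegree) * |a - b| := by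
          refine sum_le_sum fun n hn => ?_
          rw [mem_Ioc] at hn
          exact GG_lip (P := P) hZ hC hP (by omega) hn.2 a b x
      _ = ((N - ⌊(1 / ((j : ℝ) + 1)) * (N : ℝ)⌋₊ : ℕ) : ℝ) * (L * (C * (N : ℝ) ^ P.natDegree) * |a - b|) := by
          rw [sum_const, Nat.card_Ioc, nsmul_eq_mul]
      _ ≤ _ := by
          refine mul_le_mul_of_nonneg_right ?_ (by positivity)
          exact_mod_cast Nat.sub_le _ _

lemma Ph_lip [IsProbabilityMeasure μ] (hZ : Nc L Z) {C : ℝ} (hC : 0 ≤ C)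
    (hP : ∀ N v : ℝ, 1 ≤ N → 0 ≤ v → v ≤ N → |P.eval v| ≤ C * N ^ P.natDegree) (j N : ℕ) (a b : ℝ) :
    |Ph μ P Z j N a - Ph μ P Z j N b| ≤ (2 * (L * C)) * (N : ℝ) ^ P.natDegree * |a - b| := by
  unfold Ph
  have hi : ∀ a, Integrable (fun x => ‖S P Z j N a x‖ ^ 2) μ := fun a => by
    refine Integrable.of_bound ((S_meas (P := P) hZ j N a).norm.pow_const 2).aestronglyMeasurable 1 (ae_of_all _ fun x => ?_)
    rw [Real.norm_eq_abs, abs_of_nonneg (by positivity)]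
    exact pow_le_one₀ (norm_nonneg _) (S_bd (P := P) hZ _ _ _ _)
  rw [← integral_sub (hi a) (hi b)]
  have hpt : ∀ x, ‖‖S P Z j N a x‖ ^ 2 - ‖S P Z j N b x‖ ^ 2‖ ≤ (2 * (L * C)) * (N : ℝ) ^ P.natDegree * |a - b| := by
    intro x
    have h1 := S_lip (P := P) hZ hC hP j N a b x
    have h2 := S_bd (P := P) hZ j N a x
    have h3 := S_bd (P := P) hZ j N b x
    have h4 := abs_norm_sub_norm_le (S P Z j N a x) (S P Z j N b x)
    rw [Real.norm_eq_abs, sq_sub_sq, abs_mul]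
    have h5 : |‖S P Z j N a x‖ + ‖S P Z j N b x‖| ≤ 2 := by
      rw [abs_of_nonneg (by positivity)]
      linarith
    calc |‖S P Z j N a x‖ + ‖S P Z j N b x‖| * |‖S P Z j N a x‖ - ‖S P Z j N b x‖|
        ≤ 2 * (L * (C * (N : ℝ) ^ P.natDegree) * |a - b|) :=
          mul_le_mul h5 (h4.trans h1) (abs_nonneg _) (by norm_num)
      _ = _ := by ring
  have h6 := norm_integral_le_of_norm_le_const (μ := μ) (ae_of_all _ hpt)
  rw [probReal_univ, mul_one, Real.norm_eq_abs] at h6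
  exact h6

/-- the mean square over `a` in `[1, 2]` -/
lemma Ph_int [IsProbabilityMeasure μ] (hZ : Nc L Z) (hd : 0 < P.natDegree) (hl : 0 < P.leadingCoeff) (j : ℕ) :
    ∃ C : ℝ, 0 ≤ C ∧ ∀ᶠ N : ℕ in atTop, ∫ a in (1 : ℝ)..2, Ph μ P Z j N a ≤
      C * (N : ℝ) ^ (-(1 / 2 ^ (4 * P.natDegree + 6) : ℝ)) := by
  have hj1 : 1 / ((j : ℝ) + 1) ≤ 1 := by
    rw [div_le_one (by positivity)]
    have : (0 : ℝ) ≤ j := Nat.cast_nonneg j
    linarith
  obtain ⟨C, hC⟩ := blkx (p := fun v => P.eval v) (d := P.natDegree) (Q0 := 2 * P.natDegree + 1)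
    (C0 := fun Λ => L * Real.exp Λ * 2 * Λ) (ε := 1 / ((j : ℝ) + 1)) (A := 1)
    Pool.Agent.Y758.MC.parm Pool.Agent.Y259.MC.tail Pool.Agent.Y259.MC.par (Pool.Agent.Y571.MC.poly P hd hl) (Pm P)
    (by push_cast; exact le_rfl) (poly_grow P hd hl) (by positivity) hj1 one_pos
  refine ⟨|C|, abs_nonneg _, ?_⟩
  filter_upwards [hC] with N hN
  have hMN : ⌊1 / ((j : ℝ) + 1) * (N : ℝ)⌋₊ ≤ N := by
    refine Nat.floor_le_of_le ?_
    have : (0 : ℝ) ≤ N := Nat.cast_nonneg N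
    nlinarith
  have hx : ∀ x, ∫ a in (1 : ℝ)..2, ‖S P Z j N a x‖ ^ 2 ≤ |C| * (N : ℝ) ^ (-(1 / 2 ^ (4 * P.natDegree + 6) : ℝ)) := by
    intro x
    have hxm : Measurable (Z x) := hZ.meas.comp (measurable_const.prodMk measurable_id)
    have h1 := hN (Z x) hxm (hZ.bd x) (fun Λ hΛ M hM => mod_lip hZ.lip0 (hZ.lip x) hΛ hM)
    have e1 : ∀ a : ℝ, ‖S P Z j N a x‖ ^ 2 =
        1 / 4 * ‖(1 / (N : ℂ)) * (∑ n ∈ Ioc ⌊1 / ((j : ℝ) + 1) * (N : ℝ)⌋₊ N, Z x (a * P.eval (n : ℝ)) -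
          ∫ v in (⌊1 / ((j : ℝ) + 1) * (N : ℝ)⌋₊ : ℝ)..N, Z x (a * P.eval v))‖ ^ 2 := by
      intro a
      unfold S
      rw [sum_GG (Pm P) hxm (hZ.bd x) hMN, mul_left_comm, norm_mul (1 / 2 : ℂ), mul_pow]
      have h3 : ‖(1 / 2 : ℂ)‖ = 1 / 2 := by norm_num
      rw [h3]
      norm_num
    simp only [e1]
    rw [intervalIntegral.integral_const_mul]
    rw [mul_one] at h1
    have e2 : -(2 * dl (2 * P.natDegree + 1 + 1)) = (-(1 / 2 ^ (4 * P.natDegree + 6) : ℝ)) := by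
      unfold dl
      have : (2 : ℝ) ^ (2 * (2 * P.natDegree + 1 + 1) + 2) = 2 ^ (4 * P.natDegree + 6) := by congr 1; ring
      rw [this]
      field_simp
    rw [e2] at h1
    have h5 : C * (N : ℝ) ^ (-(1 / 2 ^ (4 * P.natDegree + 6) : ℝ)) ≤
        |C| * (N : ℝ) ^ (-(1 / 2 ^ (4 * P.natDegree + 6) : ℝ)) :=
      mul_le_mul_of_nonneg_right (le_abs_self _) (by positivity)
    have h6 : 0 ≤ |C| * (N : ℝ) ^ (-(1 / 2 ^ (4 * P.natDegree + 6) : ℝ)) := by positivity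
    linarith
  have hjm : Measurable fun q : ℝ × X => ‖S P Z j N q.1 q.2‖ ^ 2 := (S_joint (P := P) hZ j N).norm.pow_const 2
  have hint : Integrable (Function.uncurry fun (a : ℝ) (x : X) => ‖S P Z j N a x‖ ^ 2)
      ((volume.restrict (Set.Ioc (1 : ℝ) 2)).prod μ) := by
    refine Integrable.of_bound hjm.aestronglyMeasurable 1 (ae_of_all _ fun q => ?_)
    simp only [Function.uncurry]
    rw [Real.norm_eq_abs, abs_of_nonneg (by positivity)]
    exact pow_le_one₀ (norm_nonneg _) (S_bd (P := P) hZ _ _ _ _)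
  unfold Ph
  rw [intervalIntegral.integral_of_le (by norm_num), integral_integral_swap hint]
  have h7 : ∀ x, ∫ a in Set.Ioc (1 : ℝ) 2, ‖S P Z j N a x‖ ^ 2 ≤
      |C| * (N : ℝ) ^ (-(1 / 2 ^ (4 * P.natDegree + 6) : ℝ)) := fun x => by
    have := hx x
    rwa [intervalIntegral.integral_of_le (by norm_num)] at this
  calc _ ≤ ∫ _ : X, |C| * (N : ℝ) ^ (-(1 / 2 ^ (4 * P.natDegree + 6) : ℝ)) ∂μ :=
        integral_mono_of_nonneg (ae_of_all _ fun x => integral_nonneg fun a => by positivity) (integrable_const _)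
          (ae_of_all _ h7)
    _ = _ := by rw [integral_const, probReal_univ, one_smul]

/-- the difference of the discrete and of the continuous averages tends to zero almost everywhere -/
def Good' (μ : Measure X) (P : Polynomial ℝ) (Z : X → ℝ → ℂ) (a : ℝ) : Prop :=
  ∀ᵐ x ∂μ, Tendsto (fun N : ℕ => (1 / (N : ℂ)) * (∑ n ∈ Icc 1 N, Z x (a * P.eval (n : ℝ)) -
    ∫ v in (0 : ℝ)..N, Z x (a * P.eval v))) atTop (𝓝 0)

lemma conv_at [IsProbabilityMeasure μ] (hZ : Nc L Z) {a : ℝ}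
    (h : ∀ j : ℕ, ∃ q : ℕ, 1 ≤ q ∧ ∀ᶠ l : ℕ in atTop, Ph μ P Z j ((l + 1) ^ q) a ≤ 1 / ((l : ℝ) + 1) ^ 2) :
    Good' μ P Z a := by
  have hj : ∀ j : ℕ, ∃ q : ℕ, 1 ≤ q ∧ ∀ᵐ x ∂μ, Tendsto (fun l : ℕ => S P Z j ((l + 1) ^ q) a x) atTop (𝓝 0) := by
    intro j
    obtain ⟨q, hq, hl⟩ := h j
    refine ⟨q, hq, ?_⟩
    obtain ⟨l0, hl0⟩ := eventually_atTop.1 hl
    have hs : Summable fun l : ℕ => 1 / (((l + l0 : ℕ) : ℝ) + 1) ^ 2 := by
      have h2 := (summable_nat_add_iff (l0 + 1)).2 ((Real.summable_one_div_nat_pow (p := 2)).2 (by norm_num))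
      refine h2.congr fun l => ?_
      push_cast
      ring
    have h3 := Pool.Agent.Y86.MC.ae_summable_of μ (fun l x => ‖S P Z j ((l + l0 + 1) ^ q) a x‖ ^ 2)
      (fun l => (S_meas (P := P) hZ _ _ _).norm.pow_const 2) (fun l x => sq_nonneg _) _ hs (fun l => by
        refine Integrable.of_bound ((S_meas (P := P) hZ j _ a).norm.pow_const 2).aestronglyMeasurable 1
          (ae_of_all _ fun x => ?_)
        rw [Real.norm_eq_abs, abs_of_nonneg (by positivity)]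
        exact pow_le_one₀ (norm_nonneg _) (S_bd (P := P) hZ _ _ _ _)) (fun l => hl0 (l + l0) (by omega))
    filter_upwards [h3] with x hx
    have h4 := hx.tendsto_atTop_zero
    have h5 := h4.sqrt
    rw [Real.sqrt_zero] at h5
    have h6 : Tendsto (fun l : ℕ => S P Z j ((l + l0 + 1) ^ q) a x) atTop (𝓝 0) := by
      rw [tendsto_zero_iff_norm_tendsto_zero]
      refine h5.congr fun l => ?_
      exact Real.sqrt_sq (norm_nonneg _)
    exact (tendsto_add_atTop_iff_nat l0).1 h6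
  choose q hq hqx using hj
  unfold Good'
  filter_upwards [ae_all_iff.2 hqx] with x hx
  have hxm : Measurable (Z x) := hZ.meas.comp (measurable_const.prodMk measurable_id)
  have h1 := Pool.Agent.Y86.MC.det (c := fun n => GG (fun v => P.eval v) (Z x) n a)
    (fun n => GG_norm (hZ.bd x) n a)
    (fun j => ⟨q j, by have := hq j; omega, hx j⟩)
  have h9 := h1.const_mul (2 : ℂ)
  rw [mul_zero] at h9
  refine h9.congr fun N => ?_
  have h10 : ∑ n ∈ Icc 1 N, GG (fun v => P.eval v) (Z x) n a = (1 / 2 : ℂ) * (∑ n ∈ Icc 1 N, Z x (a * P.eval (n : ℝ)) -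
      ∫ v in (0 : ℝ)..N, Z x (a * P.eval v)) := by
    have := sum_GG (Pm P) hxm (hZ.bd x) (Nat.zero_le N) a
    rw [Nat.cast_zero] at this
    exact this
  rw [h10]
  ring

/-- the bound for the dimension -/
noncomputable def dm (d : ℕ) : ℝ≥0∞ := ENNReal.ofReal (1 - ((1 : ℕ) : ℝ) / ((d * 2 ^ (4 * d + 6) : ℕ) : ℝ))

/-- the dimension bound, `a` in `[1, 2]` -/
theorem bad_one [IsProbabilityMeasure μ] (hZ : Nc L Z) (hd : 0 < P.natDegree) (hl : 0 < P.leadingCoeff) :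
    dimH {a : ℝ | a ∈ Set.Icc (1 : ℝ) 2 ∧ ¬ Good' μ P Z a} ≤ dm P.natDegree := by
  obtain ⟨C, hC, hP⟩ := poly_bd P
  obtain ⟨W, hW⟩ : ∃ W : ℕ, W = 2 ^ (4 * P.natDegree + 6) := ⟨_, rfl⟩
  have hW0 : 0 < W := by rw [hW]; positivity
  have hW1 : 1 < W := by
    rw [hW]
    exact Nat.one_lt_two_pow (by omega)
  have hsub : {a : ℝ | a ∈ Set.Icc (1 : ℝ) 2 ∧ ¬ Good' μ P Z a} ⊆
      ⋃ j : ℕ, {a : ℝ | a ∈ Set.Icc (1 : ℝ) 2 ∧ ∀ q : ℕ, 1 ≤ q →
          ∃ᶠ l : ℕ in atTop, 1 / ((l : ℝ) + 1) ^ 2 < Ph μ P Z j ((l + 1) ^ q) a} := by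
    intro a ha
    obtain ⟨ha1, ha2⟩ := ha
    by_contra hne
    apply ha2
    refine conv_at hZ fun j => ?_
    by_contra hj
    apply hne
    rw [Set.mem_iUnion]
    refine ⟨j, ha1, fun q hq => ?_⟩
    intro hev
    apply hj
    refine ⟨q, hq, ?_⟩
    filter_upwards [hev] with l hl
    exact not_lt.1 hl
  refine (dimH_mono hsub).trans ?_
  rw [dimH_iUnion]
  refine iSup_le fun j => ?_
  unfold dm
  rw [← hW]
  have hdW : 1 < P.natDegree * W := by nlinarith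
  refine Pool.Agent.U587.DX.dimH_of_power (by omega) hdW fun q hq => ?_
  obtain ⟨C', hC'0, hC'⟩ := Ph_int (μ := μ) hZ hd hl j
  have hWq : W * q ≠ 0 := by positivity
  refine ⟨fun l a => Ph μ P Z j ((l + 1) ^ (W * q)) a, 2 * (L * C), C', by have := hZ.lip0; positivity, hC'0,
    fun l a => integral_nonneg fun x => by positivity, fun l a _ b _ => ?_, ?_, fun a ha => ⟨ha.1, ha.2 (W * q) (by
      have : 1 ≤ W := hW0
      nlinarith)⟩⟩
  · refine (Ph_lip (P := P) hZ hC hP j ((l + 1) ^ (W * q)) a b).trans (le_of_eq ?_)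
    push_cast
    rw [← pow_mul]
    congr 3
    ring
  · have ht : Tendsto (fun l : ℕ => (l + 1) ^ (W * q)) atTop atTop :=
      (tendsto_pow_atTop hWq).comp (tendsto_add_atTop_nat 1)
    filter_upwards [ht.eventually hC'] with l hl
    refine hl.trans (le_of_eq ?_)
    have hl0 : (0 : ℝ) < (l : ℝ) + 1 := by positivity
    have e3 : ((1 / 2 ^ (4 * P.natDegree + 6) : ℝ)) = 1 / (W : ℝ) := by rw [hW]; push_cast; rfl
    rw [e3]
    push_cast
    rw [div_eq_mul_inv, Real.rpow_neg (by positivity), ← Real.rpow_natCast _ (W * q), ← Real.rpow_mul hl0.le]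
    congr 2
    push_cast
    have hWr : (W : ℝ) ≠ 0 := by exact_mod_cast hW0.ne'
    have e4 : (W : ℝ) * q * (1 * (W : ℝ)⁻¹) = ((1 * q : ℕ) : ℝ) := by
      push_cast
      field_simp
    rw [e4, Real.rpow_natCast]

end one

end Pool.Agent.U527.Et
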