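import Pool.Agent.U527.Et.Exg
import Pool.Agent.Y448.MC.DetgA

set_option autoImplicit false

/-!
The block estimate with an explicit exponent, uniformly in the function (copy of `Pool.Agent.Y448.MC.blk`, where the
constants depend on the function).
-/

namespace Pool.Agent.U527.Et

open MeasureTheory Filter Finset
open Pool.Agent.Y957.MC
open Pool.Agent.Y448.MC (btm_norm_le)

/-- the mean square of one block, uniformly in the function, with an explicit exponent -/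
theorem blkx {p : ℝ → ℝ} (hPARM : S_PARM) (hTAIL : S_TAIL) (hPAR : S_PAR) (hp : Adm p)
    (hpm : Measurable p) {d : ℝ} {Q0 : ℕ} (hQ0 : 2 * d + 1 ≤ Q0)
    (hg : ∃ X1 : ℝ, 0 < d ∧ 1 ≤ X1 ∧ (∀ x, X1 ≤ x → 0 < p x) ∧
    ∀ u v, X1 ≤ u → u ≤ v →
      d / 2 * (Real.log v - Real.log u) ≤ Real.log (p v) - Real.log (p u) ∧
      Real.log (p v) - Real.log (p u) ≤ 2 * d * (Real.log v - Real.log u))
    {C0 : ℝ → ℝ} {ε A : ℝ} (hε : 0 < ε)
    (hε1 : ε ≤ 1) (hA : 0 < A) :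
    ∃ C : ℝ, ∀ᶠ N : ℕ in atTop, ∀ F : ℝ → ℂ, Measurable F → (∀ v, ‖F v‖ ≤ 1) →
      (∀ Λ : ℝ, 1 ≤ Λ → ∀ M : ℝ, 1 ≤ M → Mod Λ F (C0 Λ) M) →
      ∫ a in A..2 * A, ‖(1 / (N : ℂ)) * (∑ n ∈ Ioc ⌊ε * N⌋₊ N, F (a * p n) -
        ∫ v in (⌊ε * N⌋₊ : ℝ)..N, F (a * p v))‖ ^ 2 ≤ C * (N : ℝ) ^ (-(2 * dl (Q0 + 1))) := by
  classical
  obtain ⟨X1, hd, hX1, hpos, hgr⟩ := hg
  have hlogε : 0 ≤ Real.log (2 / ε) := by
    refine Real.log_nonneg ?_
    rw [le_div_iff₀ hε]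
    linarith
  obtain ⟨Λ, hΛd⟩ : ∃ Λ : ℝ, Λ = 1 + Real.log 2 + 2 * d * Real.log (2 / ε) := ⟨_, rfl⟩
  have hlog2 : 0 ≤ Real.log 2 := Real.log_nonneg (by norm_num)
  have hΛ : 1 ≤ Λ := by
    rw [hΛd]
    have : 0 ≤ 2 * d * Real.log (2 / ε) := by positivity
    linarith
  have hΛ0 : 0 < Λ := by linarith
  obtain ⟨C₀, hC₀, htail⟩ := hTAIL Λ hΛ
  obtain ⟨Cm, hCmd⟩ : ∃ Cm : ℝ, Cm = max (C0 Λ) 1 := ⟨_, rfl⟩
  have hCm : 1 ≤ Cm := hCmd ▸ le_max_right _ _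
  have hCmle : C0 Λ ≤ Cm := hCmd ▸ le_max_left _ _
  obtain ⟨Ce, hCe, hexp⟩ := psgx hp ε (Q0 + 1) hε hε1
  obtain ⟨δ, hδe⟩ : ∃ δ : ℝ, δ = dl (Q0 + 1) := ⟨_, rfl⟩
  have hδ : 0 < δ := hδe ▸ dl_pos _
  have hδ2 : δ ≤ 1 / 2 := hδe ▸ dl_le _
  rw [← hδe] at hexp ⊢
  obtain ⟨P1, hP1⟩ : ∃ P1 : ℝ, P1 = p X1 := ⟨_, rfl⟩
  have hP10 : 0 < P1 := hP1 ▸ hpos X1 le_rfl
  refine ⟨2 * Λ * A * (Ce ^ 2 + 4 * (C₀ * Cm * (A * P1))), ?_⟩
  have hMt : Tendsto (fun N : ℕ => ((⌊ε * N⌋₊ : ℕ) : ℝ)) atTop atTop := by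
    refine tendsto_natCast_atTop_atTop.comp (tendsto_nat_floor_atTop.comp ?_)
    exact tendsto_natCast_atTop_atTop.const_mul_atTop hε
  have e1 : ∀ᶠ N : ℕ in atTop, X1 ≤ ((⌊ε * N⌋₊ : ℕ) : ℝ) := hMt.eventually_ge_atTop _
  have e2 : ∀ᶠ N : ℕ in atTop, Real.log X1 + (2 / d) * (-Real.log A - Real.log P1) ≤
      Real.log ((⌊ε * N⌋₊ : ℕ) : ℝ) :=
    (Real.tendsto_log_atTop.comp hMt).eventually_ge_atTop _
  have e3 : ∀ᶠ N : ℕ in atTop, 2 / ε ≤ (N : ℝ) := tendsto_natCast_atTop_atTop.eventually_ge_atTop _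
  filter_upwards [hexp, eventually_ge_atTop 7, e1, e2, e3] with N hexpN hN7 hMX hMlog hNε F hF hF1 hmod
  have hmod' : ∀ M : ℝ, 1 ≤ M → Mod Λ F Cm M := by
    intro M hM h h0 h1
    refine (hmod Λ hΛ M hM h h0 h1).trans ?_
    gcongr
  have hN1 : 1 ≤ N := by omega
  have hN0 : (0 : ℝ) < N := by exact_mod_cast hN1
  have hN1' : (1 : ℝ) ≤ N := by exact_mod_cast hN1
  have hN7' : (7 : ℝ) ≤ N := by exact_mod_cast hN7
  obtain ⟨M, hM⟩ : ∃ M : ℕ, M = ⌊ε * N⌋₊ := ⟨_, rfl⟩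
  rw [← hM] at hexpN hMX hMlog ⊢
  have hM0 : (0 : ℝ) < M := by linarith
  have hMN' : (M : ℝ) ≤ N := by
    rw [hM]
    refine (Nat.floor_le (by positivity)).trans ?_
    nlinarith
  have hMN : M ≤ N := by exact_mod_cast hMN'
  have hNM : (N : ℝ) / M ≤ 2 / ε := by
    rw [div_le_div_iff₀ hM0 hε]
    have h1 : ε * N < M + 1 := by
      rw [hM]
      exact Nat.lt_floor_add_one _
    rw [div_le_iff₀ hε] at hNε
    nlinarith
  have hlogNM : Real.log N - Real.log M ≤ Real.log (2 / ε) := by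
    rw [← Real.log_div hN0.ne' hM0.ne']
    exact Real.log_le_log (by positivity) hNM
  obtain ⟨U, hU⟩ : ∃ U : ℝ, U = p M := ⟨_, rfl⟩
  have hU0 : 0 < U := hU ▸ hpos M hMX
  -- the size of `U`
  have hUX := hgr X1 M le_rfl hMX
  rw [← hU, ← hP1] at hUX
  have hAU : 1 ≤ A * U := by
    have h1 : d / 2 * (Real.log M - Real.log X1) ≥ -Real.log A - Real.log P1 := by
      have h2 : (2 / d) * (-Real.log A - Real.log P1) ≤ Real.log M - Real.log X1 := by linarith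
      have h3 := mul_le_mul_of_nonneg_left h2 (by positivity : 0 ≤ d / 2)
      have h4 : d / 2 * (2 / d * (-Real.log A - Real.log P1)) = -Real.log A - Real.log P1 := by
        field_simp
      linarith
    have h5 : 0 ≤ Real.log (A * U) := by
      rw [Real.log_mul hA.ne' hU0.ne']
      linarith [hUX.1]
    rcases lt_or_ge (A * U) 1 with h6 | h6
    · have := Real.log_neg (by positivity) h6
      linarith
    · exact h6
  have hUle : U ≤ P1 * (N : ℝ) ^ (2 * d) := by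
    have h1 : Real.log U ≤ Real.log (P1 * (N : ℝ) ^ (2 * d)) := by
      rw [Real.log_mul hP10.ne' (by positivity), Real.log_rpow hN0]
      have h2 : Real.log M ≤ Real.log N := Real.log_le_log hM0 hMN'
      have h3 : 0 ≤ Real.log X1 := Real.log_nonneg hX1
      have h4 : 2 * d * (Real.log M - Real.log X1) ≤ 2 * d * Real.log N :=
        mul_le_mul_of_nonneg_left (by linarith) (by positivity)
      linarith [hUX.2]
    exact (Real.log_le_log_iff hU0 (by positivity)).1 h1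
  -- the points
  obtain ⟨y, hy⟩ : ∃ y : ℝ → ℝ, y = fun v => p v / U := ⟨_, rfl⟩
  have hym : Measurable y := by
    rw [hy]
    exact hpm.div_const U
  have hylog : ∀ v : ℝ, (M : ℝ) ≤ v → v ≤ N → 1 ≤ y v ∧ Real.log (2 * y v) ≤ Λ ∧ 0 < p v ∧
      Real.log (y v) = Real.log (p v) - Real.log U := by
    intro v hv1 hv2
    have hpv : 0 < p v := hpos v (hMX.trans hv1)
    have hv0 : 0 < v := lt_of_lt_of_le hM0 hv1
    have h1 := hgr M v hMX hv1
    rw [← hU] at h1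
    have h2 : Real.log (y v) = Real.log (p v) - Real.log U := by
      rw [hy]
      exact Real.log_div hpv.ne' hU0.ne'
    have hyv : 0 < y v := by
      rw [hy]
      positivity
    have h3 : 0 ≤ Real.log v - Real.log M := by
      have := Real.log_le_log hM0 hv1
      linarith
    have h4 : Real.log v ≤ Real.log N := Real.log_le_log hv0 hv2
    refine ⟨?_, ?_, hpv, h2⟩
    · have h5 : 0 ≤ Real.log (y v) := by
        rw [h2]
        have : 0 ≤ d / 2 * (Real.log v - Real.log M) := by positivity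
        linarith [h1.1]
      rcases lt_or_ge (y v) 1 with h6 | h6
      · have := Real.log_neg hyv h6
        linarith
      · exact h6
    · rw [Real.log_mul two_ne_zero hyv.ne', h2, hΛd]
      have h7 : 2 * d * (Real.log v - Real.log M) ≤ 2 * d * Real.log (2 / ε) :=
        mul_le_mul_of_nonneg_left (by linarith) (by positivity)
      linarith [h1.2]
  have hmem : ∀ n ∈ Ioc M N, (M : ℝ) ≤ (n : ℝ) ∧ (n : ℝ) ≤ N := by
    intro n hn
    rw [mem_Ioc] at hn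
    exact ⟨by exact_mod_cast hn.1.le, by exact_mod_cast hn.2⟩
  have p3 := hPARM Λ F (Ioc M N) y A U M N N hΛ hF hF1 hA hU0 hN1 hMN' hym
    (fun n hn => ⟨(hylog n (hmem n hn).1 (hmem n hn).2).1, (hylog n (hmem n hn).1 (hmem n hn).2).2.1⟩)
    (fun v hv => ⟨(hylog v hv.1 hv.2).1, (hylog v hv.1 hv.2).2.1⟩)
  obtain ⟨p1, p2, -⟩ := hPAR Λ F (fun _ => 0) ∅ (fun _ => 1) A U 1 hΛ hF hF1 hA hU0 le_rfl
    (fun n hn => absurd hn (Finset.notMem_empty n))
  have hUy : ∀ v : ℝ, U * y v = p v := fun v => by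
    rw [hy]
    field_simp
  simp only [hUy] at p3
  refine p3.trans ?_
  -- the exponential sums
  obtain ⟨K, hK⟩ : ∃ K : ℕ, K = N ^ Q0 := ⟨_, rfl⟩
  have hbt : ∀ k : ℤ, |k| ≤ (K : ℤ) → ‖btm Λ (Ioc M N) y M N N k‖ ≤ Ce * (N : ℝ) ^ (-δ) := by
    intro k hk
    obtain ⟨κ, hκ⟩ : ∃ κ : ℝ, κ = 2 * Real.pi * k / Λ := ⟨_, rfl⟩
    have hkR : |(k : ℝ)| ≤ (N : ℝ) ^ Q0 := by
      have : ((|k| : ℤ) : ℝ) ≤ ((K : ℤ) : ℝ) := by exact_mod_cast hk
      rw [hK] at this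
      push_cast at this
      exact this
    have hκN : |κ| ≤ (N : ℝ) ^ (Q0 + 1) := by
      rw [hκ, abs_div, abs_mul, abs_of_pos (by positivity : (0 : ℝ) < 2 * Real.pi), abs_of_pos hΛ0]
      have hpi : Real.pi ≤ 3.15 := by have := Real.pi_lt_d2; linarith
      calc 2 * Real.pi * |(k : ℝ)| / Λ ≤ 2 * Real.pi * |(k : ℝ)| := div_le_self (by positivity) hΛ
        _ ≤ 2 * 3.15 * (N : ℝ) ^ Q0 := by gcongr
        _ ≤ N * (N : ℝ) ^ Q0 := by
            refine mul_le_mul_of_nonneg_right ?_ (by positivity)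
            norm_num
            linarith
        _ = (N : ℝ) ^ (Q0 + 1) := by ring
    have h1 := hexpN κ hκN
    have h3 : ∀ v : ℝ, (M : ℝ) ≤ v → v ≤ N → Complex.exp (((κ * Real.log (y v) : ℝ) : ℂ) * Complex.I) =
        Complex.exp (((-(κ * Real.log U) : ℝ) : ℂ) * Complex.I) *
        Complex.exp (((κ * Real.log (p v) : ℝ) : ℂ) * Complex.I) := by
      intro v hv1 hv2
      rw [← Complex.exp_add, ← add_mul, ← Complex.ofReal_add]
      congr 3
      rw [(hylog v hv1 hv2).2.2.2]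
      ring
    have h4 : ∫ v in (M : ℝ)..N, Complex.exp (((κ * Real.log (y v) : ℝ) : ℂ) * Complex.I) =
        Complex.exp (((-(κ * Real.log U) : ℝ) : ℂ) * Complex.I) *
        ∫ v in (M : ℝ)..N, Complex.exp (((κ * Real.log (p v) : ℝ) : ℂ) * Complex.I) := by
      rw [← intervalIntegral.integral_const_mul]
      refine intervalIntegral.integral_congr fun v hv => ?_
      rw [Set.uIcc_of_le hMN'] at hv
      exact h3 v hv.1 hv.2
    have h2 : btm Λ (Ioc M N) y M N N k = (1 / (N : ℂ)) *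
        (Complex.exp (((-(κ * Real.log U) : ℝ) : ℂ) * Complex.I) *
        (∑ n ∈ Ioc M N, Complex.exp (((κ * Real.log (p n) : ℝ) : ℂ) * Complex.I) -
          ∫ v in (M : ℝ)..N, Complex.exp (((κ * Real.log (p v) : ℝ) : ℂ) * Complex.I))) := by
      unfold btm
      rw [← hκ, h4, mul_sub (Complex.exp _), mul_sum]
      congr 2
      exact sum_congr rfl fun n hn => h3 n (hmem n hn).1 (hmem n hn).2
    rw [h2, norm_mul, norm_mul, Complex.norm_exp_ofReal_mul_I, one_mul, norm_div,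
      norm_one, Complex.norm_natCast]
    calc 1 / (N : ℝ) * ‖∑ n ∈ Ioc M N, Complex.exp (((κ * Real.log (p n) : ℝ) : ℂ) * Complex.I) -
          ∫ v in (M : ℝ)..N, Complex.exp (((κ * Real.log (p v) : ℝ) : ℂ) * Complex.I)‖
        ≤ 1 / (N : ℝ) * (Ce * (N : ℝ) ^ (1 - δ)) :=
          mul_le_mul_of_nonneg_left h1 (by positivity)
      _ = Ce * ((N : ℝ) ^ (1 - δ) / N) := by ring
      _ = Ce * (N : ℝ) ^ (-δ) := by
          rw [← Real.rpow_sub_one hN0.ne']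
          congr 2
          ring
  obtain ⟨bb, hbb⟩ : ∃ bb : ℤ → ℝ, bb = fun k => ‖btm Λ (Ioc M N) y M N N k‖ ^ 2 := ⟨_, rfl⟩
  have hb1' : ∀ k, bb k ≤ 4 := fun k => by
    rw [hbb]
    have h1 := btm_norm_le (Λ := Λ) (y := y) hN1 hMN k
    have h2 := norm_nonneg (btm Λ (Ioc M N) y M N N k)
    simp only
    nlinarith
  have hb0' : ∀ k, 0 ≤ bb k := fun k => by rw [hbb]; positivity
  have hb2' : ∀ k : ℤ, |k| ≤ (K : ℤ) → bb k ≤ (Ce * (N : ℝ) ^ (-δ)) ^ 2 := by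
    intro k hk
    rw [hbb]
    exact pow_le_pow_left₀ (norm_nonneg _) (hbt k hk) 2
  have hK1 : 1 ≤ K := by
    rw [hK]
    exact Nat.one_le_pow _ _ hN1
  have hgoal : ∑' k : ℤ, ‖cf Λ F (A * U) k‖ ^ 2 * bb k ≤
      (Ce * (N : ℝ) ^ (-δ)) ^ 2 + 4 * (C₀ * Cm * (A * U) / (K : ℝ)) := by
    have hle : ∀ k, ‖cf Λ F (A * U) k‖ ^ 2 * bb k ≤ 4 * ‖cf Λ F (A * U) k‖ ^ 2 := fun k => by
      rw [mul_comm 4]
      exact mul_le_mul_of_nonneg_left (hb1' k) (by positivity)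
    have hsum : Summable fun k : ℤ => ‖cf Λ F (A * U) k‖ ^ 2 * bb k :=
      Summable.of_nonneg_of_le (fun k => mul_nonneg (by positivity) (hb0' k)) hle (p1.mul_left 4)
    refine hsum.tsum_le_of_sum_le fun S => ?_
    rw [← sum_filter_add_sum_filter_not S (fun k => |k| ≤ (K : ℤ))]
    refine add_le_add ?_ ?_
    · calc ∑ k ∈ S with |k| ≤ (K : ℤ), ‖cf Λ F (A * U) k‖ ^ 2 * bb k
          ≤ ∑ k ∈ S with |k| ≤ (K : ℤ), ‖cf Λ F (A * U) k‖ ^ 2 *
              (Ce * (N : ℝ) ^ (-δ)) ^ 2 :=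
            sum_le_sum fun k hk => mul_le_mul_of_nonneg_left (hb2' k (mem_filter.1 hk).2) (by positivity)
        _ = (∑ k ∈ S with |k| ≤ (K : ℤ), ‖cf Λ F (A * U) k‖ ^ 2) *
              (Ce * (N : ℝ) ^ (-δ)) ^ 2 := by rw [sum_mul]
        _ ≤ 1 * (Ce * (N : ℝ) ^ (-δ)) ^ 2 :=
            mul_le_mul_of_nonneg_right ((p1.sum_le_tsum _ (fun k _ => by positivity)).trans p2)
              (by positivity)
        _ = _ := one_mul _
    · refine (sum_le_sum fun k _ => hle k).trans ?_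
      rw [← mul_sum]
      refine mul_le_mul_of_nonneg_left ?_ (by norm_num)
      refine htail F Cm (A * U) K hF hF1 hCm hAU (hmod' _ hAU) hK1 _ fun k hk => ?_
      rw [mem_filter] at hk
      exact not_le.mp hk.2
  have hmain : 2 * Λ * A * ∑' k : ℤ, ‖cf Λ F (A * U) k‖ ^ 2 * bb k ≤ 2 * Λ * A *
      ((Ce * (N : ℝ) ^ (-δ)) ^ 2 + 4 * (C₀ * Cm * (A * U) / (K : ℝ))) :=
    mul_le_mul_of_nonneg_left hgoal (by positivity)
  rw [hbb] at hmain
  refine hmain.trans ?_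
  rw [mul_assoc (2 * Λ * A)]
  refine mul_le_mul_of_nonneg_left ?_ (by positivity)
  have h5 : (Ce * (N : ℝ) ^ (-δ)) ^ 2 ≤ Ce ^ 2 * (N : ℝ) ^ (-(2 * δ)) := by
    rw [mul_pow, ← Real.rpow_natCast ((N : ℝ) ^ (-δ)) 2, ← Real.rpow_mul hN0.le]
    refine mul_le_mul_of_nonneg_left ?_ (by positivity)
    refine Real.rpow_le_rpow_of_exponent_le hN1' ?_
    push_cast
    linarith
  have h6 : 4 * (C₀ * Cm * (A * U) / (K : ℝ)) ≤
      4 * (C₀ * Cm * (A * P1)) * (N : ℝ) ^ (-(2 * δ)) := by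
    have h7 : U / (K : ℝ) ≤ P1 * (N : ℝ) ^ (-(1 : ℝ)) := by
      rw [hK, div_le_iff₀ (by positivity)]
      refine hUle.trans ?_
      push_cast
      rw [mul_assoc, ← Real.rpow_natCast, ← Real.rpow_add hN0]
      refine mul_le_mul_of_nonneg_left ?_ hP10.le
      exact Real.rpow_le_rpow_of_exponent_le hN1' (by linarith)
    have h8 : (N : ℝ) ^ (-(1 : ℝ)) ≤ (N : ℝ) ^ (-(2 * δ)) :=
      Real.rpow_le_rpow_of_exponent_le hN1' (by linarith)
    calc 4 * (C₀ * Cm * (A * U) / (K : ℝ)) = 4 * (C₀ * Cm * A) * (U / K) := by ring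
      _ ≤ 4 * (C₀ * Cm * A) * (P1 * (N : ℝ) ^ (-(2 * δ))) := by
          refine mul_le_mul_of_nonneg_left (h7.trans ?_) (by positivity)
          exact mul_le_mul_of_nonneg_left h8 hP10.le
      _ = _ := by ring
  rw [add_mul]
  exact add_le_add h5 h6

end Pool.Agent.U527.Et
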