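import Pool.Agent.Y614.MC.Expg
import Pool.Agent.Y708.MC.Psg

set_option autoImplicit false

/-!
Exponential sums with the phases `κ log p(n)` and exponential integrals, with an explicit exponent which does not depend
on the block. (Copies of `Pool.Agent.Y614.MC.expg` and `Pool.Agent.Y708.MC.psg`, where the exponent is not recorded.)
-/

namespace Pool.Agent.U527.Et

open Finset Filter MeasureTheory
open Pool.Agent.H469R2.NK (e norm_e Av Av_le Cq Cq_pos iterate harm_le norm_sum_neg)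
open Pool.Agent.TH915.PW (Hy SD SD_sq SD_le)
open Pool.Agent.Y957.MC
open Pool.Agent.Y614.MC (exp_bound' exists_root log_pow_le phase_hy sum_eq)

/-- the exponent -/
noncomputable def dl (Q : ℕ) : ℝ := 1 / (2 * 2 ^ (2 * Q + 2))

lemma dl_pos (Q : ℕ) : 0 < dl Q := by unfold dl; positivity

lemma dl_le (Q : ℕ) : dl Q ≤ 1 / 2 := by
  unfold dl
  have : (1 : ℝ) ≤ 2 ^ (2 * Q + 2) := one_le_pow₀ (by norm_num)
  rw [div_le_div_iff₀ (by positivity) (by norm_num)]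
  linarith

/-- **Exponential sums with a phase like `d log x`.** -/
theorem expgx {φ : ℕ → ℝ → ℝ} {d : ℝ} (hφ : Phase φ d) (ε : ℝ) (Q : ℕ) (hε : 0 < ε) :
    ∃ C : ℝ, 0 < C ∧ ∀ᶠ N : ℕ in atTop, ∀ κ : ℝ, κ ≠ 0 →
    |κ| ≤ (N : ℝ) ^ Q → ‖∑ n ∈ Ioc ⌊ε * N⌋₊ N, Complex.exp (((κ * φ 0 n : ℝ) : ℂ) * Complex.I)‖ ≤
      C * (N / |κ| + (N : ℝ) ^ (1 - dl Q)) := by
  rcases le_or_gt 1 ε with hε1 | hε1
  · refine ⟨1, one_pos, Eventually.of_forall fun N κ _ _ => ?_⟩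
    have h1 : N ≤ ⌊ε * N⌋₊ := by
      apply Nat.le_floor
      nlinarith [(Nat.cast_nonneg N : (0 : ℝ) ≤ N)]
    rw [Ioc_eq_empty_of_le h1]
    simp only [sum_empty, norm_zero]
    positivity
  have hd : 0 < d := hφ.1
  set k : ℕ := 2 * Q + 2 with hk
  have hk1 : 1 ≤ k := by omega
  obtain ⟨X0, hX0, hy0⟩ := phase_hy hφ 0 (by decide)
  obtain ⟨Xk, hXk, hyk⟩ := phase_hy hφ k ⟨Q + 1, by omega⟩
  have hfac : (0 : ℝ) < k.factorial := by exact_mod_cast Nat.factorial_pos k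
  have hfac1 : (1 : ℝ) ≤ k.factorial := by exact_mod_cast Nat.factorial_pos k
  have hπ := Real.pi_pos
  set a0 : ℝ := ((Nat.factorial 0 : ℕ) : ℝ) * d / (2 * 2 ^ (0 + 1)) with ha0
  set b0 : ℝ := 2 * ((Nat.factorial 0 : ℕ) : ℝ) * d / ε ^ (0 + 1) with hb0
  set ak : ℝ := k.factorial * d / (2 * 2 ^ (k + 1)) with hak
  set bk : ℝ := 2 * k.factorial * d / ε ^ (k + 1) with hbk
  have ha0' : 0 < a0 := by rw [ha0]; positivity
  have hb0' : 0 < b0 := by rw [hb0]; positivity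
  have hak' : 0 < ak := by rw [hak]; positivity
  have hbk' : 0 < bk := by rw [hbk]; positivity
  have hb0k : b0 ≤ bk := by
    rw [hb0, hbk]
    simp only [Nat.factorial_zero, Nat.cast_one, zero_add, pow_one, mul_one]
    rw [div_le_div_iff₀ hε (by positivity)]
    have h1 : ε ^ (k + 1) ≤ ε := by
      calc ε ^ (k + 1) = ε ^ k * ε := pow_succ _ _
        _ ≤ 1 * ε := by
          gcongr
          exact pow_le_one₀ hε.le hε1.le
        _ = ε := one_mul _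
    calc 2 * d * ε ^ (k + 1) ≤ 2 * d * ε := by gcongr
      _ = 2 * 1 * d * ε := by ring
      _ ≤ 2 * k.factorial * d * ε := by gcongr
  set c1 : ℝ := min 1 (Real.pi / bk) with hc1
  have hc1' : 0 < c1 := by rw [hc1]; positivity
  have hc11 : c1 ≤ 1 := min_le_left _ _
  have hc12 : c1 ≤ Real.pi / bk := min_le_right _ _
  set K : ℝ := Cq k * (2 / Real.sqrt c1 + 4 * 2 ^ k * (bk / ak) * (1 + 2 * k) ^ k) with hK
  have hCq := Cq_pos k
  have hK0 : 0 < K := by rw [hK]; positivity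
  set δ : ℝ := 1 / (2 * 2 ^ k) with hδ
  have hδ0 : 0 < δ := by rw [hδ]; positivity
  have hδe : dl Q = δ := rfl
  rw [hδe]
  refine ⟨4 * Real.pi / a0 + K ^ ((1 : ℝ) / 2 ^ k), by positivity, ?_⟩
  have hev : ∀ᶠ N : ℕ in atTop, X0 / ε ≤ N ∧ Xk / ε ≤ N ∧ bk / Real.pi ≤ N ∧ (1 : ℝ) ≤ N := by
    have h : ∀ x : ℝ, ∀ᶠ N : ℕ in atTop, x ≤ (N : ℝ) := fun x =>
      tendsto_natCast_atTop_atTop.eventually_ge_atTop x
    exact (h _).and ((h _).and ((h _).and (h _)))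
  filter_upwards [hev] with N hN κ hκ hκQ
  obtain ⟨hN1, hN2, hN3, hN4⟩ := hN
  rw [div_le_iff₀ hε, mul_comm] at hN1 hN2
  rw [div_le_iff₀ hπ] at hN3
  have hN4' : 1 ≤ N := by exact_mod_cast hN4
  have hNpos : (0 : ℝ) < N := by linarith
  have hκ0 : 0 < |κ| := abs_pos.2 hκ
  rw [sum_eq]
  set a : ℕ := ⌊ε * N⌋₊ with ha
  have haN : a ≤ N := by
    have h1 : (a : ℝ) ≤ ε * N := Nat.floor_le (by positivity)
    have h2 : (a : ℝ) ≤ N := by nlinarith
    exact_mod_cast h2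
  have hua : ε * N ≤ (a : ℝ) + 1 := (Nat.lt_floor_add_one _).le
  have haL : (a : ℝ) + 1 + ((N - a : ℕ) : ℝ) ≤ 2 * N := by
    rw [Nat.cast_sub haN]
    linarith
  have hLN : N - a ≤ N := Nat.sub_le _ _
  set θ : ℝ := |κ| / (2 * Real.pi) with hθ
  have hθ0 : 0 < θ := by rw [hθ]; positivity
  have hNnn : 0 ≤ (N : ℝ) / |κ| := by positivity
  have hNδ : 0 ≤ (N : ℝ) ^ (1 - δ) := by positivity
  have hKp : 0 ≤ K ^ ((1 : ℝ) / 2 ^ k) := by positivity
  rcases le_or_gt (2 * (θ * (b0 / (N : ℝ) ^ (0 + 1) * (([] : List ℕ).prod : ℕ)))) 1 with hcase | hcase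
  · -- Kusmin-Landau
    have h1 := SD_le (div_pos ha0' (by positivity)) θ hθ0 (hy0 ε N hε hNpos hN1) ((a : ℝ) + 1) (N - a)
      hua haL [] (by simp) rfl hcase
    have h2 : SD φ θ ((a : ℝ) + 1) (N - a) [] =
        ∑ n ∈ range (N - a), e (θ * φ 0 (((a : ℝ) + 1) + (n : ℝ))) := by
      unfold Pool.Agent.TH915.PW.SD
      simp only [List.sum_nil, Nat.sub_zero]
      rfl
    rw [h2] at h1
    refine h1.trans ?_
    have h3 : 2 / (θ * (a0 / (N : ℝ) ^ (0 + 1)) * (([] : List ℕ).prod : ℕ)) =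
        4 * Real.pi / a0 * (N / |κ|) := by
      simp only [List.prod_nil, Nat.cast_one, zero_add, pow_one, mul_one]
      rw [hθ]
      field_simp
      ring
    rw [h3]
    calc 4 * Real.pi / a0 * (N / |κ|) ≤ 4 * Real.pi / a0 * (N / |κ| + (N : ℝ) ^ (1 - δ)) := by
          gcongr
          linarith
      _ ≤ _ := by
          gcongr
          linarith
  · -- Weyl - van der Corput
    simp only [List.prod_nil, Nat.cast_one, zero_add, pow_one, mul_one] at hcase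
    have hκN : Real.pi * N < b0 * |κ| := by
      rw [hθ] at hcase
      have e1 : 2 * (|κ| / (2 * Real.pi) * (b0 / N)) = b0 * |κ| / (Real.pi * N) := by
        field_simp
      rw [e1, lt_div_iff₀ (by positivity), one_mul] at hcase
      exact hcase
    set R : ℝ := Real.pi * (N : ℝ) ^ (k + 1) / (bk * |κ|) with hR
    have hRlow : Real.pi / bk * (N : ℝ) ^ (Q + 3) ≤ R := by
      rw [hR, div_mul_eq_mul_div, div_le_div_iff₀ hbk' (by positivity)]
      have e1 : (N : ℝ) ^ (k + 1) = (N : ℝ) ^ (Q + 3) * (N : ℝ) ^ Q := by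
        rw [← pow_add]
        congr 1
        omega
      rw [e1]
      calc Real.pi * (N : ℝ) ^ (Q + 3) * (bk * |κ|) ≤
            Real.pi * (N : ℝ) ^ (Q + 3) * (bk * (N : ℝ) ^ Q) := by gcongr
        _ = _ := by ring
    have hR1 : 1 ≤ R := by
      refine le_trans ?_ hRlow
      have h1 : (1 : ℝ) ≤ (N : ℝ) ^ (Q + 2) := one_le_pow₀ hN4
      rw [show Q + 3 = (Q + 2) + 1 by ring, pow_succ, div_mul_eq_mul_div, le_div_iff₀ hbk', one_mul]
      calc bk ≤ N * Real.pi := hN3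
        _ = 1 * (N * Real.pi) := (one_mul _).symm
        _ ≤ (N : ℝ) ^ (Q + 2) * (N * Real.pi) := by gcongr
        _ = _ := by ring
    have hRup : R ≤ (N : ℝ) ^ k := by
      rw [hR, div_le_iff₀ (by positivity), pow_succ]
      calc Real.pi * ((N : ℝ) ^ k * N) = (N : ℝ) ^ k * (Real.pi * N) := by ring
        _ ≤ (N : ℝ) ^ k * (b0 * |κ|) := by gcongr
        _ ≤ (N : ℝ) ^ k * (bk * |κ|) := by gcongr
    obtain ⟨H, hH1, hH2, hH3⟩ := exists_root k hk1 R hR1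
    have hHN : H ≤ N := by
      have h1 : (H : ℝ) ^ k ≤ (N : ℝ) ^ k := hH2.trans hRup
      have h2 : (H : ℝ) ≤ N := le_of_pow_le_pow_left₀ (by omega) hNpos.le h1
      exact_mod_cast h2
    have hH1' : (1 : ℝ) ≤ H := by exact_mod_cast hH1
    have hHN' : (H : ℝ) ≤ N := by exact_mod_cast hHN
    have hcond : 2 * (θ * (bk / (N : ℝ) ^ (k + 1) * (H : ℝ) ^ k)) ≤ 1 := by
      calc 2 * (θ * (bk / (N : ℝ) ^ (k + 1) * (H : ℝ) ^ k)) ≤
            2 * (θ * (bk / (N : ℝ) ^ (k + 1) * R)) := by gcongr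
        _ = 1 := by
            rw [hθ, hR]
            field_simp
    have hb := exp_bound' (div_pos hak' (by positivity)) (div_pos hbk' (by positivity)).le θ hθ0
      (hyk ε N hε hNpos hN2) ((a : ℝ) + 1) N (N - a) H hN4' hLN hua haL hH1 hHN hcond
    -- the first term
    have h4H : c1 * N ≤ (2 * (H : ℝ)) ^ 2 := by
      have h1 : (c1 * N) ^ (Q + 1) ≤ ((2 * (H : ℝ)) ^ 2) ^ (Q + 1) := by
        rw [← pow_mul, show 2 * (Q + 1) = k by omega]
        refine le_trans ?_ hH3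
        refine le_trans ?_ hRlow
        rw [mul_pow]
        have e1 : c1 ^ (Q + 1) ≤ Real.pi / bk := by
          refine le_trans ?_ hc12
          calc c1 ^ (Q + 1) ≤ c1 ^ 1 := pow_le_pow_of_le_one hc1'.le hc11 (by omega)
            _ = c1 := pow_one _
        have e2 : (N : ℝ) ^ (Q + 1) ≤ (N : ℝ) ^ (Q + 3) := pow_le_pow_right₀ hN4 (by omega)
        gcongr
      exact le_of_pow_le_pow_left₀ (by omega) (by positivity) h1
    have hterm1 : 1 / (H : ℝ) ≤ 2 / Real.sqrt c1 * (N : ℝ) ^ (-(1 / 2) : ℝ) := by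
      have h1 : Real.sqrt (c1 * N) ≤ 2 * H := by
        rw [← Real.sqrt_sq (by positivity : (0 : ℝ) ≤ 2 * H)]
        exact Real.sqrt_le_sqrt h4H
      rw [Real.sqrt_mul hc1'.le] at h1
      have h2 : 0 < Real.sqrt c1 := Real.sqrt_pos.2 hc1'
      have h3 : 0 < Real.sqrt (N : ℝ) := Real.sqrt_pos.2 hNpos
      rw [Real.rpow_neg hNpos.le, ← Real.sqrt_eq_rpow, ← div_eq_mul_inv, div_div,
        div_le_div_iff₀ (by positivity) (by positivity), one_mul]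
      exact h1
    -- the second term
    have hterm2 : 2 / (θ * (ak / (N : ℝ) ^ (k + 1))) / N * ((∑ l ∈ Ico 1 H, (1 : ℝ) / l) / H) ^ k ≤
        4 * 2 ^ k * (bk / ak) * (1 + 2 * k) ^ k * (N : ℝ) ^ (-(1 / 2) : ℝ) := by
      have hs0 : 0 ≤ ∑ l ∈ Ico 1 H, (1 : ℝ) / l := sum_nonneg fun _ _ => by positivity
      have hlog : ∑ l ∈ Ico 1 H, (1 : ℝ) / l ≤ 1 + Real.log N := by
        refine (harm_le H).trans ?_
        have := Real.log_le_log (by positivity) hHN'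
        linarith
      have hRpos : 0 < R := by linarith
      have h1 : ((∑ l ∈ Ico 1 H, (1 : ℝ) / l) / H) ^ k ≤ (1 + Real.log N) ^ k * 2 ^ k / R := by
        rw [div_pow, div_le_div_iff₀ (by positivity) hRpos]
        calc (∑ l ∈ Ico 1 H, (1 : ℝ) / l) ^ k * R ≤ (1 + Real.log N) ^ k * (2 * (H : ℝ)) ^ k := by
              gcongr
          _ = _ := by rw [mul_pow]; ring
      have h2 := log_pow_le k hk1 N hN4
      have e3 : (N : ℝ) ^ (-(1 / 2) : ℝ) = (N : ℝ) ^ (1 / 2 : ℝ) / N := by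
        rw [← Real.rpow_sub_one hNpos.ne']
        norm_num
      calc 2 / (θ * (ak / (N : ℝ) ^ (k + 1))) / N * ((∑ l ∈ Ico 1 H, (1 : ℝ) / l) / H) ^ k ≤
            2 / (θ * (ak / (N : ℝ) ^ (k + 1))) / N *
              (((1 + 2 * k) ^ k * (N : ℝ) ^ (1 / 2 : ℝ)) * 2 ^ k / R) := by
            gcongr
            refine h1.trans ?_
            gcongr
        _ = _ := by
            rw [hθ, hR, e3]
            field_simp
            ring
    have hfin : (‖∑ n ∈ range (N - a), e (θ * φ 0 (((a : ℝ) + 1) + (n : ℝ)))‖ / N) ^ (2 ^ k) ≤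
        K * (N : ℝ) ^ (-(1 / 2) : ℝ) := by
      refine hb.trans ?_
      calc _ ≤ Cq k * (2 / Real.sqrt c1 * (N : ℝ) ^ (-(1 / 2) : ℝ) +
            4 * 2 ^ k * (bk / ak) * (1 + 2 * k) ^ k * (N : ℝ) ^ (-(1 / 2) : ℝ)) := by
            gcongr
        _ = _ := by rw [hK]; ring
    set S : ℝ := ‖∑ n ∈ range (N - a), e (θ * φ 0 (((a : ℝ) + 1) + (n : ℝ)))‖ with hS
    have hS0 : 0 ≤ S := norm_nonneg _
    have hroot : S / N ≤ K ^ ((1 : ℝ) / 2 ^ k) * (N : ℝ) ^ (-δ) := by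
      have h1 : (S / N) = ((S / N) ^ (2 ^ k)) ^ ((1 : ℝ) / 2 ^ k) := by
        rw [← Real.rpow_natCast, ← Real.rpow_mul (by positivity)]
        push_cast
        rw [mul_one_div_cancel (by positivity), Real.rpow_one]
      rw [h1]
      calc _ ≤ (K * (N : ℝ) ^ (-(1 / 2) : ℝ)) ^ ((1 : ℝ) / 2 ^ k) := by gcongr
        _ = K ^ ((1 : ℝ) / 2 ^ k) * (N : ℝ) ^ (-(1 / 2) * (1 / 2 ^ k) : ℝ) := by
            rw [Real.mul_rpow hK0.le (by positivity), ← Real.rpow_mul (by positivity)]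
        _ = _ := by
            congr 2
            rw [hδ]
            field_simp
    rw [div_le_iff₀ hNpos] at hroot
    calc S ≤ K ^ ((1 : ℝ) / 2 ^ k) * (N : ℝ) ^ (-δ) * N := hroot
      _ = K ^ ((1 : ℝ) / 2 ^ k) * (N : ℝ) ^ (1 - δ) := by
        rw [mul_assoc, sub_eq_neg_add, Real.rpow_add hNpos, Real.rpow_one]
      _ ≤ K ^ ((1 : ℝ) / 2 ^ k) * (N / |κ| + (N : ℝ) ^ (1 - δ)) := by
        gcongr
        linarith
      _ ≤ _ := by
        gcongr
        have : 0 ≤ 4 * Real.pi / a0 := by positivity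
        linarith



open Pool.Agent.Y708.MC (ex norm_ex ex_sub_le ex_continuous phase_bounds int_le sum_int_le)

theorem psgx {p : ℝ → ℝ} (hp : Adm p) (ε : ℝ) (Q : ℕ) (hε : 0 < ε) (hε1 : ε ≤ 1) :
    ∃ C : ℝ, 0 < C ∧ ∀ᶠ N : ℕ in atTop, ∀ κ : ℝ, |κ| ≤ (N : ℝ) ^ Q →
      ‖∑ n ∈ Ioc ⌊ε * N⌋₊ N, Complex.exp (((κ * Real.log (p n) : ℝ) : ℂ) * Complex.I) -
        ∫ v in (⌊ε * N⌋₊ : ℝ)..N, Complex.exp (((κ * Real.log (p v) : ℝ) : ℂ) * Complex.I)‖ ≤
      C * (N : ℝ) ^ (1 - dl Q) := by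
  obtain ⟨φ, d, x₀, hph, hx₀⟩ := hp
  have hd : 0 < d := hph.1
  obtain ⟨x₁, hx₁, hb⟩ := phase_bounds hph
  obtain ⟨C₁, hC₁, hexp⟩ := expgx hph ε Q hε
  have hδ₁ := dl_pos Q
  have hδ2 := dl_le Q
  refine ⟨4 * d / ε + 2 * C₁ + 12 / d, by positivity, ?_⟩
  have hN1 : ∀ᶠ N : ℕ in atTop, max (max x₀ x₁) 1 + 1 ≤ ε * N ∧ 2 ≤ ε * N := by
    have h1 : Tendsto (fun N : ℕ => ε * (N : ℝ)) atTop atTop :=
      Tendsto.const_mul_atTop hε tendsto_natCast_atTop_atTop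
    exact (h1.eventually_ge_atTop _).and (h1.eventually_ge_atTop _)
  filter_upwards [hexp, hN1, Filter.eventually_ge_atTop 1] with N hN hN2 hN3 κ hκ
  obtain ⟨hN2, hN4⟩ := hN2
  obtain ⟨M, hM⟩ : ∃ M : ℕ, M = ⌊ε * N⌋₊ := ⟨_, rfl⟩
  rw [← hM] at hN ⊢
  have hNr : (1 : ℝ) ≤ N := by exact_mod_cast hN3
  have hM1 : ε * N - 1 < M := by
    rw [hM]
    exact Nat.sub_one_lt_floor _
  have hM2 : (M : ℝ) ≤ ε * N := by
    rw [hM]
    exact Nat.floor_le (by positivity)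
  have hMN : M ≤ N := by
    have : (M : ℝ) ≤ N := hM2.trans (by nlinarith)
    exact_mod_cast this
  have hM3 : max (max x₀ x₁) 1 ≤ M := by linarith
  have hMx0 : x₀ ≤ M := (le_max_left _ _).trans ((le_max_left _ _).trans hM3)
  have hMx1 : x₁ ≤ M := (le_max_right _ _).trans ((le_max_left _ _).trans hM3)
  have hM4 : ε * N / 2 ≤ M := by linarith
  have hMp : (0 : ℝ) < M := by linarith
  have e1 : ∑ n ∈ Ioc M N, Complex.exp (((κ * Real.log (p n) : ℝ) : ℂ) * Complex.I) =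
      ∑ n ∈ Ioc M N, ex (κ * φ 0 n) := by
    apply Finset.sum_congr rfl
    intro n hn
    have h1 : (M : ℝ) ≤ n := by exact_mod_cast (Finset.mem_Ioc.mp hn).1.le
    rw [ex, (hx₀ n (hMx0.trans h1)).2]
  have e2 : ∫ v in (M : ℝ)..N, Complex.exp (((κ * Real.log (p v) : ℝ) : ℂ) * Complex.I) =
      ∫ v in (M : ℝ)..N, ex (κ * φ 0 v) := by
    apply intervalIntegral.integral_congr
    intro v hv
    rw [Set.uIcc_of_le (by exact_mod_cast hMN)] at hv
    simp only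
    rw [ex, (hx₀ v (hMx0.trans hv.1)).2]
  rw [e2]
  have hpow1 : (N : ℝ) ^ (1 / 2 : ℝ) ≤ (N : ℝ) ^ (1 - dl Q) :=
    Real.rpow_le_rpow_of_exponent_le hNr (by linarith)
  have hsq : (N : ℝ) ^ (1 / 2 : ℝ) * (N : ℝ) ^ (1 / 2 : ℝ) = N := by
    rw [← Real.rpow_add (by linarith)]
    norm_num
  have hsp : 0 < (N : ℝ) ^ (1 / 2 : ℝ) := Real.rpow_pos_of_pos (by linarith) _
  obtain ⟨P, hP⟩ : ∃ P : ℝ, P = (N : ℝ) ^ (1 - dl Q) := ⟨_, rfl⟩
  rw [← hP] at hpow1 ⊢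
  have hP0 : 0 < P := hsp.trans_le hpow1
  by_cases hcase : |κ| ≤ (N : ℝ) ^ (1 / 2 : ℝ)
  · rw [e1]
    refine (sum_int_le hx₁ hb hd hMx1 hMN κ).trans ?_
    have h1 : 2 * d / (M : ℝ) ≤ 4 * d / ε / N := by
      rw [div_div, div_le_div_iff₀ hMp (by positivity)]
      nlinarith
    have h2 : N * (|κ| * (2 * d / M)) ≤ N * ((N : ℝ) ^ (1 / 2 : ℝ) * (4 * d / ε / N)) := by
      apply mul_le_mul_of_nonneg_left _ (by positivity)
      exact mul_le_mul hcase h1 (by positivity) hsp.le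
    have h3 : N * ((N : ℝ) ^ (1 / 2 : ℝ) * (4 * d / ε / N)) = 4 * d / ε * (N : ℝ) ^ (1 / 2 : ℝ) := by
      field_simp
    have h4 : 4 * d / ε * (N : ℝ) ^ (1 / 2 : ℝ) ≤ 4 * d / ε * P :=
      mul_le_mul_of_nonneg_left hpow1 (by positivity)
    have h5 : 0 ≤ 2 * C₁ * P := by positivity
    have h6 : 0 ≤ 12 / d * P := by positivity
    rw [h3] at h2
    linarith
  · push Not at hcase
    have hκ0 : κ ≠ 0 := fun h => by
      rw [h, abs_zero] at hcase
      linarith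
    have h1 : ‖∑ n ∈ Ioc M N, Complex.exp (((κ * Real.log (p n) : ℝ) : ℂ) * Complex.I)‖ ≤
        C₁ * (N / |κ| + P) := by
      rw [e1, hP]
      exact hN κ hκ0 hκ
    have h2 := int_le hd hx₁ hb hMx1 (show (M : ℝ) ≤ N by exact_mod_cast hMN) hκ0
    have hκp : 0 < |κ| := abs_pos.mpr hκ0
    have h3 : (N : ℝ) / |κ| ≤ (N : ℝ) ^ (1 / 2 : ℝ) := by
      rw [div_le_iff₀ hκp]
      nlinarith
    have h4 := norm_sub_le (∑ n ∈ Ioc M N, Complex.exp (((κ * Real.log (p n) : ℝ) : ℂ) * Complex.I))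
      (∫ v in (M : ℝ)..N, ex (κ * φ 0 v))
    have h5 : C₁ * (N / |κ| + P) ≤ C₁ * (P + P) :=
      mul_le_mul_of_nonneg_left (by linarith) hC₁.le
    have h6 : 12 / d * (N / |κ|) ≤ 12 / d * P :=
      mul_le_mul_of_nonneg_left (by linarith) (by positivity)
    have h7 : 0 ≤ 4 * d / ε * P := by positivity
    linarith

end Pool.Agent.U527.Et
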