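import Pool.Agent.U527.Et.Bad
import Pool.Agent.U587.DX.Dense

set_option autoImplicit false

/-!
One exceptional set of Hausdorff dimension less than one for a countable family of functions.
-/

namespace Pool.Agent.U527.Et

open MeasureTheory Filter Finset
open Pool.Agent.Y957.MC (IsFlow)
open Pool.Agent.U587.ET (prod_diff_c norm_prod_le_one)
open Pool.Agent.U587.DX (lip_family)
open scoped ENNReal NNReal Topology

universe u

variable {X : Type u} [MeasurableSpace X] {μ : Measure X}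

lemma nc_scale {L c : ℝ} {Z : X → ℝ → ℂ} (hZ : Nc L Z) (hc : 0 ≤ c) : Nc (L * c) (fun x v => Z x (c * v)) := by
  refine ⟨hZ.meas.comp (measurable_fst.prodMk (measurable_snd.const_mul c)), fun x v => hZ.bd _ _,
    mul_nonneg hZ.lip0 hc, fun x u v => (hZ.lip x _ _).trans (le_of_eq ?_)⟩
  rw [← mul_sub, abs_mul, abs_of_nonneg hc, mul_assoc]

lemma good_scale {P : Polynomial ℝ} {Z : X → ℝ → ℂ} {b c : ℝ} (h : Good' μ P (fun x v => Z x (c * v)) b) :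
    Good' μ P Z (c * b) := by
  unfold Good' at h ⊢
  filter_upwards [h] with x hx
  simpa only [mul_assoc] using hx

/-- the dimension bound, all positive `a` -/
theorem bad_pos [IsProbabilityMeasure μ] {L : ℝ} {P : Polynomial ℝ} {Z : X → ℝ → ℂ} (hZ : Nc L Z)
    (hd : 0 < P.natDegree) (hl : 0 < P.leadingCoeff) :
    dimH {a : ℝ | 0 < a ∧ ¬ Good' μ P Z a} ≤ dm P.natDegree := by
  have hsub : {a : ℝ | 0 < a ∧ ¬ Good' μ P Z a} ⊆
      ⋃ i : ℤ, (fun b : ℝ => (2 : ℝ) ^ i * b) '' {b : ℝ | b ∈ Set.Icc (1 : ℝ) 2 ∧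
        ¬ Good' μ P (fun x v => Z x ((2 : ℝ) ^ i * v)) b} := by
    rintro a ⟨ha0, ha⟩
    obtain ⟨i, hi⟩ := exists_mem_Ioc_zpow ha0 (one_lt_two (α := ℝ))
    have hp : (0 : ℝ) < (2 : ℝ) ^ i := by positivity
    have e : (2 : ℝ) ^ i * (a / (2 : ℝ) ^ i) = a := by field_simp
    rw [Set.mem_iUnion]
    refine ⟨i, a / (2 : ℝ) ^ i, ⟨⟨?_, ?_⟩, fun hg => ?_⟩, e⟩
    · rw [le_div_iff₀ hp, one_mul]
      exact hi.1.le
    · rw [div_le_iff₀ hp]
      have := hi.2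
      rw [zpow_add_one₀ (by norm_num)] at this
      linarith
    · apply ha
      rw [← e]
      exact good_scale hg
  refine (dimH_mono hsub).trans ?_
  rw [dimH_iUnion]
  refine iSup_le fun i => ?_
  have hp : (0 : ℝ) < (2 : ℝ) ^ i := by positivity
  have hlip : LipschitzWith (Real.toNNReal ((2 : ℝ) ^ i)) (fun b : ℝ => (2 : ℝ) ^ i * b) := by
    refine LipschitzWith.of_dist_le_mul fun x y => ?_
    rw [Real.dist_eq, Real.dist_eq, Real.coe_toNNReal _ hp.le, ← mul_sub, abs_mul, abs_of_pos hp]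
  exact (hlip.dimH_image_le _).trans (bad_one (nc_scale hZ hp.le) hd hl)

lemma dm_mono {d d' : ℕ} (h : d ≤ d') (hd : 0 < d) : dm d ≤ dm d' := by
  unfold dm
  refine ENNReal.ofReal_le_ofReal ?_
  have h1 : d * 2 ^ (4 * d + 6) ≤ d' * 2 ^ (4 * d' + 6) :=
    Nat.mul_le_mul h (Nat.pow_le_pow_right (by norm_num) (by omega))
  have h2 : (0 : ℝ) < ((d * 2 ^ (4 * d + 6) : ℕ) : ℝ) := by
    have : 0 < d * 2 ^ (4 * d + 6) := by positivity
    exact_mod_cast this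
  have h3 : ((d * 2 ^ (4 * d + 6) : ℕ) : ℝ) ≤ ((d' * 2 ^ (4 * d' + 6) : ℕ) : ℝ) := by exact_mod_cast h1
  have h4 := one_div_le_one_div_of_le h2 h3
  push_cast at h4 ⊢
  linarith

lemma nc_prod {m : ℕ} {τ : Fin m → ℝ → X → X} (hτ : ∀ j, IsFlow μ (τ j)) {F : Fin m → X → ℂ}
    (hF : ∀ j, Measurable (F j)) (hF1 : ∀ j x, ‖F j x‖ ≤ 1)
    (hL : ∀ j, ∃ L : ℝ, ∀ u v x, ‖F j (τ j u x) - F j (τ j v x)‖ ≤ L * |u - v|) :
    ∃ L : ℝ, Nc L (fun x v => ∏ j, F j (τ j v x)) := by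
  choose L hL using hL
  refine ⟨∑ j, |L j|, ⟨?_, fun x v => norm_prod_le_one _ _ fun j _ => hF1 j _,
    Finset.sum_nonneg fun j _ => abs_nonneg _, fun x u v => ?_⟩⟩
  · refine Finset.measurable_prod _ fun j _ => ?_
    exact (hF j).comp ((hτ j).meas.comp measurable_swap)
  · refine (prod_diff_c _ _ _ (fun j _ => hF1 j _) (fun j _ => hF1 j _)).trans ?_
    rw [Finset.sum_mul]
    refine Finset.sum_le_sum fun j _ => (hL j u v x).trans ?_
    exact mul_le_mul_of_nonneg_right (le_abs_self _) (abs_nonneg _)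

/-- the exceptional set of one polynomial -/
theorem one_poly [IsProbabilityMeasure μ] [IsSeparable μ] {m : ℕ} {τ : Fin m → ℝ → X → X}
    (hτ : ∀ j, IsFlow μ (τ j)) : ∃ F : Fin m → ℕ → X → ℂ, (∀ j i, Measurable (F j i)) ∧ (∀ j i x, ‖F j i x‖ ≤ 1) ∧
      (∀ j i, ∃ L : ℝ, ∀ u v x, ‖F j i (τ j u x) - F j i (τ j v x)‖ ≤ L * |u - v|) ∧
      (∀ j, ∀ f : X → ℂ, Measurable f → (∀ x, ‖f x‖ ≤ 1 / 4) → ∀ ε : ℝ, 0 < ε →
        ∃ i, ∫ x, ‖f x - F j i x‖ ∂μ < ε) ∧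
      ∀ P : Polynomial ℝ, 0 < P.natDegree → 0 < P.leadingCoeff → ∃ D : Set ℝ, dimH D ≤ dm P.natDegree ∧
        ∀ a : ℝ, 0 < a → a ∉ D → ∀ s : Fin m → ℕ, Good' μ P (fun x v => ∏ j, F j (s j) (τ j v x)) a := by
  choose F hFm hF1 hFL hFd using fun j => lip_family (hτ j)
  refine ⟨F, hFm, hF1, hFL, hFd, fun P hd hl => ?_⟩
  refine ⟨⋃ s : Fin m → ℕ, {a : ℝ | 0 < a ∧ ¬ Good' μ P (fun x v => ∏ j, F j (s j) (τ j v x)) a}, ?_, ?_⟩
  · rw [dimH_iUnion]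
    refine iSup_le fun s => ?_
    obtain ⟨L, hL⟩ := nc_prod hτ (F := fun j => F j (s j)) (fun j => hFm j _) (fun j => hF1 j _) (fun j => hFL j _)
    exact bad_pos hL hd hl
  · intro a ha0 haD s
    by_contra hne
    exact haD (Set.mem_iUnion.2 ⟨s, ha0, hne⟩)

end Pool.Agent.U527.Et
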