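import Pool.Agent.U527.Et.Tr2
import Pool.Agent.Y957.MC.Fin3

set_option autoImplicit false

/-!
One exceptional set of Hausdorff dimension less than one, essentially bounded functions.
-/

namespace Pool.Agent.U527.Et

open MeasureTheory Filter Finset
open Pool.Agent.Y957.MC (IsFlow exists_version)
open Pool.Agent.U587.DX (Sg)
open scoped ENNReal NNReal Topology

universe u

variable {X : Type u} [mX : MeasurableSpace X] {μ : Measure X}

/-- two versions of the same functions -/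
lemma vers [IsProbabilityMeasure μ] {m : ℕ} {τ : Fin m → ℝ → X → X} (hτ : ∀ j, IsFlow μ (τ j)) {f g : Fin m → X → ℂ}
    (hfg : ∀ j, f j =ᵐ[μ] g j) (P : Polynomial ℝ) (a : ℝ) : ∀ᵐ x ∂μ,
      (∀ N : ℕ, di P (fun v => ∏ j, f j (τ j v x)) a N = di P (fun v => ∏ j, g j (τ j v x)) a N) ∧
      (∀ N : ℕ, dd P (fun v => ∏ j, f j (τ j v x)) a N = dd P (fun v => ∏ j, g j (τ j v x)) a N) ∧
      (∀ V : ℝ, ci (fun v => ∏ j, f j (τ j v x)) V = ci (fun v => ∏ j, g j (τ j v x)) V) := by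
  have key : ∀ w : ℝ → ℝ, Measurable w → ∀ᵐ x ∂μ, ∀ᵐ v : ℝ, ∀ j, f j (τ j (w v) x) = g j (τ j (w v) x) := by
    intro w hw
    have h5 : ∀ j, ∀ᵐ x ∂μ, ∀ᵐ v : ℝ, f j (τ j (w v) x) = g j (τ j (w v) x) := by
      intro j
      obtain ⟨E, hE, hEm, hE0⟩ : ∃ E : Set X, {x | ¬ f j x = g j x} ⊆ E ∧ MeasurableSet E ∧ μ E = 0 :=
        exists_measurable_superset_of_null (ae_iff.mp (hfg j))
      have h5 : ∀ᵐ x ∂μ, ∀ᵐ t : ℝ, τ j (w t) x ∉ E := by
        have hset : MeasurableSet {q : ℝ × X | τ j (w q.1) q.2 ∉ E} :=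
          ((hτ j).meas.comp ((hw.comp measurable_fst).prodMk measurable_snd)) hEm.compl
        rw [← Measure.ae_ae_comm hset]
        refine ae_of_all _ fun t => ?_
        exact ((hτ j).mp (w t)).quasiMeasurePreserving.ae (show ∀ᵐ x ∂μ, x ∉ E from by rw [ae_iff]; simpa using hE0)
      filter_upwards [h5] with x hx
      filter_upwards [hx] with t ht
      by_contra hne
      exact ht (hE hne)
    filter_upwards [ae_all_iff.2 h5] with x hx
    exact ae_all_iff.2 hx
  have h6 : ∀ᵐ x ∂μ, ∀ (n : ℕ) (j : Fin m), f j (τ j (a * P.eval (n : ℝ)) x) = g j (τ j (a * P.eval (n : ℝ)) x) := by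
    rw [ae_all_iff]
    intro n
    rw [ae_all_iff]
    intro j
    exact ((hτ j).mp (a * P.eval (n : ℝ))).quasiMeasurePreserving.ae (hfg j)
  filter_upwards [key id measurable_id, key (fun v => a * P.eval v) ((Pm P).const_mul a), h6] with x hx1 hx2 hx3
  refine ⟨fun N => ?_, fun N => ?_, fun V => ?_⟩
  · unfold di
    simp only [hx3]
  · unfold dd
    simp only [hx3]
    congr 2
    refine intervalIntegral.integral_congr_ae ?_
    filter_upwards [hx2] with v hv _
    simp only [hv]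
  · unfold ci
    congr 1
    refine intervalIntegral.integral_congr_ae ?_
    filter_upwards [hx1] with v hv _
    simp only [id] at hv
    simp only [hv]

lemma di_smul (P : Polynomial ℝ) (F : ℝ → ℂ) (c : ℂ) (a : ℝ) (N : ℕ) :
    di P (fun v => c * F v) a N = c * di P F a N := by
  unfold di
  rw [← Finset.mul_sum]
  ring

lemma dd_smul (P : Polynomial ℝ) (F : ℝ → ℂ) (c : ℂ) (a : ℝ) (N : ℕ) :
    dd P (fun v => c * F v) a N = c * dd P F a N := by
  unfold dd
  rw [← Finset.mul_sum, intervalIntegral.integral_const_mul]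
  ring

lemma ci_smul (F : ℝ → ℂ) (c : ℂ) (V : ℝ) : ci (fun v => c * F v) V = c * ci F V := by
  unfold ci
  rw [intervalIntegral.integral_const_mul]
  ring

/-- one polynomial -/
theorem main [IsProbabilityMeasure μ] [IsSeparable μ] {m : ℕ} {τ : Fin m → ℝ → X → X}
    (hτ : ∀ j, IsFlow μ (τ j)) (P : Polynomial ℝ) (hd : 0 < P.natDegree) (hl : 0 < P.leadingCoeff) :
    ∃ D : Set ℝ, dimH D ≤ dm P.natDegree ∧ ∀ a : ℝ, 0 < a → a ∉ D →
      ∀ f : Fin m → X → ℂ, (∀ j, AEStronglyMeasurable (f j) μ) → (∀ j, ∃ C : ℝ, ∀ᵐ x ∂μ, ‖f j x‖ ≤ C) →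
        Tendsto (fun N : ℕ => ∫ x, ‖dd P (fun v => ∏ j, f j (τ j v x)) a N‖ ^ 2 ∂μ) atTop (𝓝 0) ∧
        ((∀ j, Sg μ (τ j) P a) → ∀ᵐ x ∂μ, ∀ L : ℂ,
          Tendsto (fun N : ℕ => di P (fun v => ∏ j, f j (τ j v x)) a N) atTop (𝓝 L) ↔
            Tendsto (fun V : ℝ => ci (fun v => ∏ j, f j (τ j v x)) V) atTop (𝓝 L)) := by
  obtain ⟨F, hFm, hF1, hFL, hFd, hex⟩ := one_poly hτ
  obtain ⟨D, hD, hDa⟩ := hex P hd hl
  refine ⟨D, hD, fun a ha0 haD f hf hfb => ?_⟩
  choose g hgm hgb hfg using fun j => exists_version (hf j) (hfb j)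
  choose C hC using hgb
  obtain ⟨R, hR⟩ : ∃ R : ℝ, R = 4 * (∑ j, |C j| + 1) := ⟨_, rfl⟩
  have hR0 : 0 < R := by
    rw [hR]
    have : 0 ≤ ∑ j, |C j| := Finset.sum_nonneg fun j _ => abs_nonneg _
    linarith
  have hRc : (R : ℂ) ≠ 0 := by exact_mod_cast hR0.ne'
  have hgR : ∀ j x, ‖g j x / (R : ℂ)‖ ≤ 1 / 4 := by
    intro j x
    rw [norm_div, Complex.norm_real, Real.norm_of_nonneg hR0.le, div_le_iff₀ hR0]
    have h1 := (hC j x).trans (le_abs_self _)
    have h2 : |C j| ≤ ∑ j, |C j| :=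
      Finset.single_le_sum (f := fun j => |C j|) (fun i _ => abs_nonneg _) (Finset.mem_univ j)
    rw [hR]
    linarith
  have hgRm : ∀ j, Measurable fun x => g j x / (R : ℂ) := fun j => (hgm j).div_const _
  choose s hs using fun (i : ℕ) (j : Fin m) => hFd j (fun x => g j x / (R : ℂ)) (hgRm j) (hgR j)
    (1 / ((i : ℝ) + 1)) (by positivity)
  have hlim : ∀ j, Tendsto (fun i => ∫ x, ‖g j x / (R : ℂ) - F j (s i j) x‖ ∂μ) atTop (𝓝 0) := by
    intro j
    refine squeeze_zero (fun i => integral_nonneg fun x => norm_nonneg _) (fun i => (hs i j).le) ?_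
    exact tendsto_one_div_add_atTop_nhds_zero_nat
  have hrw : ∀ x, (fun v => ∏ j, g j (τ j v x)) = fun v => (R : ℂ) ^ m * ∏ j, (g j (τ j v x) / (R : ℂ)) := by
    intro x
    funext v
    rw [Finset.prod_div_distrib]
    simp only [Finset.prod_const, Finset.card_univ, Fintype.card_fin]
    field_simp
  have hver := vers hτ hfg P a
  constructor
  · have h1 := tr_L (μ := μ) hτ (P := P) (a := a) hgRm (fun j x => (hgR j x).trans (by norm_num))
      (g := fun i j => F j (s i j)) (fun i j => hFm j _) (fun i j => hF1 j _) hlim (fun i => hDa a ha0 haD (s i))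
    have h2 := h1.const_mul (‖(R : ℂ) ^ m‖ ^ 2)
    rw [mul_zero] at h2
    refine h2.congr fun N => ?_
    rw [← integral_const_mul]
    refine integral_congr_ae ?_
    filter_upwards [hver] with x hx
    rw [hx.2.1 N, hrw x, dd_smul, norm_mul, mul_pow]
  · intro hS
    have h1 := tr_ae (μ := μ) hτ hd hl ha0 hS hgRm (fun j x => (hgR j x).trans (by norm_num))
      (g := fun i j => F j (s i j)) (fun i j => hFm j _) (fun i j => hF1 j _) (fun i j => hFL j _) hlim
      (fun i => hDa a ha0 haD (s i))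
    filter_upwards [h1, hver] with x hx hv L
    have hRm : (R : ℂ) ^ m ≠ 0 := pow_ne_zero _ hRc
    have e1 : (fun N : ℕ => di P (fun v => ∏ j, f j (τ j v x)) a N) =
        fun N : ℕ => (R : ℂ) ^ m * di P (fun v => ∏ j, (g j (τ j v x) / (R : ℂ))) a N := by
      funext N
      rw [hv.1 N, hrw x, di_smul]
    have e2 : (fun V : ℝ => ci (fun v => ∏ j, f j (τ j v x)) V) =
        fun V : ℝ => (R : ℂ) ^ m * ci (fun v => ∏ j, (g j (τ j v x) / (R : ℂ))) V := by
      funext V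
      rw [hv.2.2 V, hrw x, ci_smul]
    have e3 : ∀ {α : Type} {l : Filter α} {u : α → ℂ}, Tendsto (fun t => (R : ℂ) ^ m * u t) l (𝓝 L) ↔
        Tendsto u l (𝓝 (((R : ℂ) ^ m)⁻¹ * L)) := by
      intro α l u
      constructor
      · intro h
        have h3 := h.const_mul (((R : ℂ) ^ m)⁻¹)
        refine h3.congr fun t => ?_
        rw [← mul_assoc, inv_mul_cancel₀ hRm, one_mul]
      · intro h
        have h3 := h.const_mul ((R : ℂ) ^ m)
        rwa [← mul_assoc, mul_inv_cancel₀ hRm, one_mul] at h3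
    rw [e1, e2, e3, e3]
    exact hx _

end Pool.Agent.U527.Et
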