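import Pool.Agent.U527.Et.MSusp

set_option autoImplicit false

/-!
Continuous averages of the suspension of a family of commuting maps and discrete averages of the maps.
-/

namespace Pool.Agent.U527.Et

open MeasureTheory Filter Finset
open Pool.Agent.Y957.MC (IsFlow)
open Pool.Agent.U587.ET (lam)
open scoped Topology

universe u

variable {X : Type u} [MeasurableSpace X] {μ : Measure X} {m : ℕ} [IsProbabilityMeasure μ]

lemma mphi_meas {T : Fin (m + 1) → X ≃ᵐ X} (hT : ∀ j, MeasurePreserving (T j) μ μ) {f : Fin (m + 1) → X → ℂ}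
    (hf : ∀ j, Measurable (f j)) (p : (Fin (m + 1) → ℝ) × X) : Measurable (mphi T f p) := by
  unfold mphi
  refine Finset.measurable_prod _ fun j _ => ?_
  exact (mF_meas hf j).comp ((msusp_flow hT j).meas.comp (measurable_id.prodMk measurable_const))

omit [IsProbabilityMeasure μ] [MeasurableSpace X] in
lemma prod_bd {a : Fin (m + 1) → ℂ} {C : ℝ} (ha : ∀ j, ‖a j‖ ≤ C) : ‖∏ j, a j‖ ≤ C ^ (m + 1) := by
  rw [norm_prod]
  calc ∏ j, ‖a j‖ ≤ ∏ _j : Fin (m + 1), C := Finset.prod_le_prod (fun j _ => norm_nonneg _) fun j _ => ha j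
    _ = C ^ (m + 1) := by simp

lemma mphi_ii {T : Fin (m + 1) → X ≃ᵐ X} (hT : ∀ j, MeasurePreserving (T j) μ μ) {f : Fin (m + 1) → X → ℂ}
    (hf : ∀ j, Measurable (f j)) {C : ℝ} (hC0 : 0 ≤ C) (hfb : ∀ j x, ‖f j x‖ ≤ C) (p : (Fin (m + 1) → ℝ) × X)
    (a b : ℝ) : IntervalIntegrable (mphi T f p) volume a b := by
  rw [intervalIntegrable_iff]
  exact Measure.integrableOn_of_bounded (M := C ^ (m + 1)) (by simp) (mphi_meas hT hf p).aestronglyMeasurable
    (ae_of_all _ fun r => prod_bd fun j => mF_bd hC0 hfb j _)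

omit [IsProbabilityMeasure μ] in
lemma mphi_piece (T : Fin (m + 1) → X ≃ᵐ X) (f : Fin (m + 1) → X → ℂ) {s : Fin (m + 1) → ℝ}
    (hs : ∀ j, s j ∈ Set.Ico (1 / 2 : ℝ) (9 / 16)) (x : X) (n : ℕ) :
    ∫ v in (n : ℝ)..((n + 1 : ℕ) : ℝ), mphi T f (s, x) v = (1 / 16 : ℂ) * mcub T f x n := by
  push_cast
  rw [intervalIntegral.integral_of_le (by linarith), ← integral_Ico_eq_integral_Ioc,
    setIntegral_congr_fun measurableSet_Ico (fun v hv => mphi_eq T f hs x n hv),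
    setIntegral_indicator measurableSet_Ico]
  have h1 : Set.Ico (n : ℝ) (n + 1) ∩ Set.Ico ((n : ℝ) + 9 / 16 - s 0) (n + 10 / 16 - s 0) =
      Set.Ico ((n : ℝ) + 9 / 16 - s 0) (n + 10 / 16 - s 0) := by
    apply Set.inter_eq_self_of_subset_right
    intro v hv
    constructor
    · linarith [hv.1, (hs 0).2]
    · linarith [hv.2, (hs 0).1]
  rw [h1, setIntegral_const, Real.volume_real_Ico_of_le (by linarith)]
  have h2 : (n : ℝ) + 10 / 16 - s 0 - ((n : ℝ) + 9 / 16 - s 0) = 1 / 16 := by ring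
  rw [h2, Complex.real_smul]
  push_cast
  ring

lemma mphi_int {T : Fin (m + 1) → X ≃ᵐ X} (hT : ∀ j, MeasurePreserving (T j) μ μ) {f : Fin (m + 1) → X → ℂ}
    (hf : ∀ j, Measurable (f j)) {C : ℝ} (hC0 : 0 ≤ C) (hfb : ∀ j x, ‖f j x‖ ≤ C) {s : Fin (m + 1) → ℝ}
    (hs : ∀ j, s j ∈ Set.Ico (1 / 2 : ℝ) (9 / 16)) (x : X) (N : ℕ) :
    ∫ v in (0 : ℝ)..N, mphi T f (s, x) v = (1 / 16 : ℂ) * ∑ n ∈ range N, mcub T f x n := by
  have h1 := intervalIntegral.sum_integral_adjacent_intervals (f := mphi T f (s, x)) (μ := volume)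
    (a := fun n : ℕ => (n : ℝ)) (n := N) (fun k _ => mphi_ii hT hf hC0 hfb _ _ _)
  rw [Nat.cast_zero] at h1
  rw [← h1, mul_sum]
  exact sum_congr rfl fun n _ => mphi_piece T f hs x n

/-- continuous convergence implies discrete convergence for the maps -/
lemma mdisc {T : Fin (m + 1) → X ≃ᵐ X} (hT : ∀ j, MeasurePreserving (T j) μ μ) {f : Fin (m + 1) → X → ℂ}
    (hf : ∀ j, Measurable (f j)) {C : ℝ} (hC0 : 0 ≤ C) (hfb : ∀ j x, ‖f j x‖ ≤ C) {s : Fin (m + 1) → ℝ}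
    (hs : ∀ j, s j ∈ Set.Ico (1 / 2 : ℝ) (9 / 16)) (x : X) {L : ℂ}
    (hL : Tendsto (fun V : ℝ => (1 / (V : ℂ)) * ∫ v in (0 : ℝ)..V, mphi T f (s, x) v) atTop (𝓝 L)) :
    Tendsto (fun N : ℕ => (1 / (N : ℂ)) * ∑ n ∈ Icc 1 N, mcub T f x n) atTop (𝓝 (16 * L)) := by
  have h1 := (hL.comp tendsto_natCast_atTop_atTop).const_mul (16 : ℂ)
  have hb : ∀ n, ‖mcub T f x n‖ ≤ C ^ (m + 1) := fun n => prod_bd fun j => hfb j _
  have h2 : Tendsto (fun N : ℕ => (1 / (N : ℂ)) * (mcub T f x N - mcub T f x 0)) atTop (𝓝 0) := by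
    have h3 : Tendsto (fun N : ℕ => (2 * C ^ (m + 1)) * (1 / (N : ℝ))) atTop (𝓝 0) := by
      have := (tendsto_one_div_atTop_nhds_zero_nat (𝕜 := ℝ)).const_mul (2 * C ^ (m + 1))
      rwa [mul_zero] at this
    refine squeeze_zero_norm (fun N => ?_) h3
    rw [norm_mul, norm_div, norm_one, Complex.norm_natCast, mul_comm]
    refine mul_le_mul_of_nonneg_right ?_ (by positivity)
    refine (norm_sub_le _ _).trans ?_
    linarith [hb N, hb 0]
  have h3 := h1.add h2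
  rw [add_zero] at h3
  refine h3.congr fun N => ?_
  simp only [Function.comp_apply]
  rw [Complex.ofReal_natCast, mphi_int hT hf hC0 hfb hs x N]
  have h4 : ∑ n ∈ Icc 1 N, mcub T f x n = ∑ n ∈ range N, mcub T f x n + (mcub T f x N - mcub T f x 0) := by
    have h5 : ∑ n ∈ range (N + 1), mcub T f x n = ∑ n ∈ range N, mcub T f x n + mcub T f x N :=
      sum_range_succ _ _
    have h6 : ∑ n ∈ range (N + 1), mcub T f x n = ∑ n ∈ Icc 1 N, mcub T f x n + mcub T f x 0 := by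
      rw [sum_range_succ']
      congr 1
      have hI : Icc 1 N = Ico (0 + 1) (N + 1) := by
        ext n
        simp only [mem_Icc, mem_Ico]
        omega
      rw [hI, ← sum_Ico_add' (fun n => mcub T f x n) 0 N 1, ← range_eq_Ico]
    have h7 := h5.symm.trans h6
    linear_combination -h7
  rw [h4]
  ring

/-- almost every point -/
theorem mkey {T : Fin (m + 1) → X ≃ᵐ X} (hT : ∀ j, MeasurePreserving (T j) μ μ) {f : Fin (m + 1) → X → ℂ}
    (hf : ∀ j, Measurable (f j)) {C : ℝ} (hC0 : 0 ≤ C) (hfb : ∀ j x, ‖f j x‖ ≤ C)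
    (h2 : ∀ᵐ p ∂((mlam m).prod μ), ∃ L : ℂ, Tendsto (fun V : ℝ => (1 / (V : ℂ)) * ∫ v in (0 : ℝ)..V, mphi T f p v)
      atTop (𝓝 L)) :
    ∀ᵐ x ∂μ, ∃ L : ℂ, Tendsto (fun N : ℕ => (1 / (N : ℂ)) * ∑ n ∈ Icc 1 N, mcub T f x n) atTop (𝓝 L) := by
  have h3 := Measure.ae_ae_of_ae_prod h2
  have hJ : mlam m (Set.pi Set.univ fun _ => Set.Ico (1 / 2 : ℝ) (9 / 16)) ≠ 0 := by
    unfold mlam
    rw [Measure.pi_pi]
    refine Finset.prod_ne_zero_iff.2 fun j _ => ?_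
    unfold lam
    rw [Measure.restrict_apply measurableSet_Ico]
    have : Set.Ico (1 / 2 : ℝ) (9 / 16) ∩ Set.Ico 0 1 = Set.Ico (1 / 2 : ℝ) (9 / 16) := by
      apply Set.inter_eq_self_of_subset_left
      intro v hv
      exact ⟨by linarith [hv.1], by linarith [hv.2]⟩
    rw [this, Real.volume_Ico]
    simp only [ne_eq, ENNReal.ofReal_eq_zero, not_le]
    norm_num
  obtain ⟨s, hs, hsx⟩ : ∃ s ∈ (Set.pi Set.univ fun _ : Fin (m + 1) => Set.Ico (1 / 2 : ℝ) (9 / 16)),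
      ∀ᵐ x ∂μ, ∃ L : ℂ,
      Tendsto (fun V : ℝ => (1 / (V : ℂ)) * ∫ v in (0 : ℝ)..V, mphi T f (s, x) v) atTop (𝓝 L) := by
    by_contra hne
    apply hJ
    refine measure_mono_null (fun s hs => ?_) (ae_iff.1 h3)
    exact fun hgood => hne ⟨s, hs, hgood⟩
  filter_upwards [hsx] with x hx
  obtain ⟨L, hL⟩ := hx
  exact ⟨16 * L, mdisc hT hf hC0 hfb (fun j => hs j (Set.mem_univ j)) x hL⟩

end Pool.Agent.U527.Et
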