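import Pool.Agent.U587.ET.Amp

set_option autoImplicit false

/-!
The suspension of a family of commuting maps: commuting flows on `[0, 1)^(m+1) × X`.
-/

namespace Pool.Agent.U527.Et

open MeasureTheory Filter Finset
open Pool.Agent.Y957.MC (IsFlow)
open Pool.Agent.U587.ET (lam sh ct floor_sh fract_sh sh_zero ct_zero sh_sh ct_add meas_ct meas_sh mp_sh meas_zpow
  mp_zpow perm_iter)
open scoped Topology

universe u

variable {X : Type u} [MeasurableSpace X] {μ : Measure X} {m : ℕ}

/-- the flow of the map with number `j` -/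
noncomputable def msusp (T : Fin (m + 1) → X ≃ᵐ X) (j : Fin (m + 1)) (t : ℝ) (p : (Fin (m + 1) → ℝ) × X) :
    (Fin (m + 1) → ℝ) × X :=
  (Function.update p.1 j (sh t (p.1 j)), (((T j).toEquiv : Equiv.Perm X) ^ ct t (p.1 j)) p.2)

/-- the measure on the base -/
noncomputable def mlam (m : ℕ) : Measure (Fin (m + 1) → ℝ) := Measure.pi fun _ => lam

instance : IsProbabilityMeasure (mlam m) := by unfold mlam; infer_instance

lemma mp_base (j : Fin (m + 1)) (t : ℝ) :
    MeasurePreserving (fun s : Fin (m + 1) → ℝ => Function.update s j (sh t (s j))) (mlam m) (mlam m) := by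
  have h := measurePreserving_pi (fun _ : Fin (m + 1) => lam) (fun _ : Fin (m + 1) => lam)
    (f := fun i => if i = j then sh t else id) (fun i => by
      by_cases hi : i = j
      · simp only [hi, if_true]
        exact mp_sh t
      · simp only [hi, if_false]
        exact MeasurePreserving.id _)
  have e : (fun s : Fin (m + 1) → ℝ => Function.update s j (sh t (s j))) =
      fun (a : Fin (m + 1) → ℝ) i => (if i = j then sh t else id) (a i) := by
    funext s i
    by_cases hi : i = j
    · subst hi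
      simp
    · simp [hi]
  rw [e]
  exact h

theorem msusp_flow [IsProbabilityMeasure μ] {T : Fin (m + 1) → X ≃ᵐ X} (hT : ∀ j, MeasurePreserving (T j) μ μ)
    (j : Fin (m + 1)) : IsFlow ((mlam m).prod μ) (msusp T j) := by
  have hm : Measurable fun q : ℤ × X => (((T j).toEquiv : Equiv.Perm X) ^ q.1) q.2 :=
    measurable_from_prod_countable_right fun k => meas_zpow (T j) k
  refine ⟨?_, ?_, ?_, ?_⟩
  · unfold msusp
    have h1 : Measurable fun p : ℝ × (Fin (m + 1) → ℝ) × X => (p.1, p.2.1 j) :=
      measurable_fst.prodMk ((measurable_pi_apply j).comp (measurable_fst.comp measurable_snd))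
    refine Measurable.prodMk ?_ ?_
    · rw [measurable_pi_iff]
      intro i
      by_cases hi : i = j
      · subst hi
        simp only [Function.update_self]
        exact meas_sh.comp h1
      · simp only [Function.update_of_ne hi]
        exact (measurable_pi_apply i).comp (measurable_fst.comp measurable_snd)
    · exact hm.comp ((meas_ct.comp h1).prodMk (measurable_snd.comp measurable_snd))
  · rintro ⟨s, x⟩
    unfold msusp
    simp only
    rw [sh_zero, ct_zero, zpow_zero, Function.update_eq_self]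
    rfl
  · rintro t u ⟨s, x⟩
    unfold msusp
    simp only
    rw [Function.update_self, sh_sh, ct_add, zpow_add, Function.update_idem]
    rfl
  · intro t
    have h := (mp_base j t).skew_product (μc := μ) (μd := μ)
      (g := fun s x => (((T j).toEquiv : Equiv.Perm X) ^ ct t (s j)) x) ?_ ?_
    · exact h
    · exact hm.comp ((meas_ct.comp (measurable_const.prodMk ((measurable_pi_apply j).comp measurable_fst))).prodMk
        measurable_snd)
    · exact ae_of_all _ fun s => (mp_zpow (hT j) _).map_eq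

lemma msusp_comm {T : Fin (m + 1) → X ≃ᵐ X} (hc : ∀ i j x, T i (T j x) = T j (T i x)) (i j : Fin (m + 1)) (t u : ℝ)
    (p : (Fin (m + 1) → ℝ) × X) : msusp T i t (msusp T j u p) = msusp T j u (msusp T i t p) := by
  obtain ⟨s, x⟩ := p
  have hcomm : ∀ k l : ℤ, (((T i).toEquiv : Equiv.Perm X) ^ k) ((((T j).toEquiv : Equiv.Perm X) ^ l) x) =
      (((T j).toEquiv : Equiv.Perm X) ^ l) ((((T i).toEquiv : Equiv.Perm X) ^ k) x) := by
    intro k l
    have h1 : Commute ((T i).toEquiv : Equiv.Perm X) ((T j).toEquiv : Equiv.Perm X) := by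
      apply Equiv.ext
      intro y
      exact hc i j y
    have h2 := (h1.zpow_zpow k l).eq
    have h3 := congrArg (fun e : Equiv.Perm X => e x) h2
    exact h3
  by_cases hij : i = j
  · subst hij
    unfold msusp
    simp only
    rw [Function.update_self, Function.update_self, Function.update_idem, Function.update_idem, sh_sh, sh_sh,
      add_comm t u]
    have e1 : ct t (sh u (s i)) + ct u (s i) = ct u (sh t (s i)) + ct t (s i) := by
      rw [← ct_add, ← ct_add, add_comm]
    have e2 : (((T i).toEquiv : Equiv.Perm X) ^ ct t (sh u (s i))) ((((T i).toEquiv : Equiv.Perm X) ^ ct u (s i)) x) =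
        (((T i).toEquiv : Equiv.Perm X) ^ ct u (sh t (s i))) ((((T i).toEquiv : Equiv.Perm X) ^ ct t (s i)) x) := by
      rw [← Equiv.Perm.mul_apply, ← Equiv.Perm.mul_apply, ← zpow_add, ← zpow_add, e1]
    rw [e2]
  · unfold msusp
    simp only
    rw [Function.update_of_ne hij, Function.update_of_ne (Ne.symm hij), hcomm, Function.update_comm (Ne.symm hij)]

/-- the functions on the suspension: a window for the first one -/
noncomputable def mF (f : Fin (m + 1) → X → ℂ) (j : Fin (m + 1)) (p : (Fin (m + 1) → ℝ) × X) : ℂ :=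
  if j = 0 then (if Int.fract (p.1 0) ∈ Set.Ico (9 / 16 : ℝ) (10 / 16) then f 0 p.2 else 0) else f j p.2

lemma mF_meas {f : Fin (m + 1) → X → ℂ} (hf : ∀ j, Measurable (f j)) (j : Fin (m + 1)) : Measurable (mF f j) := by
  unfold mF
  by_cases hj : j = 0
  · simp only [hj, if_true]
    exact Measurable.ite (((measurable_pi_apply 0).comp measurable_fst).fract measurableSet_Ico)
      ((hf 0).comp measurable_snd) measurable_const
  · simp only [hj, if_false]
    exact (hf j).comp measurable_snd

lemma mF_bd {f : Fin (m + 1) → X → ℂ} {C : ℝ} (hC0 : 0 ≤ C) (hf : ∀ j x, ‖f j x‖ ≤ C) (j : Fin (m + 1))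
    (p : (Fin (m + 1) → ℝ) × X) : ‖mF f j p‖ ≤ C := by
  unfold mF
  split_ifs
  · exact hf _ _
  · simpa using hC0
  · exact hf _ _

/-- the discrete term -/
def mcub (T : Fin (m + 1) → X ≃ᵐ X) (f : Fin (m + 1) → X → ℂ) (x : X) (n : ℕ) : ℂ := ∏ j, f j ((T j)^[n] x)

/-- the continuous term -/
noncomputable def mphi (T : Fin (m + 1) → X ≃ᵐ X) (f : Fin (m + 1) → X → ℂ) (p : (Fin (m + 1) → ℝ) × X) (v : ℝ) : ℂ :=
  ∏ j, mF f j (msusp T j v p)

lemma mphi_eq (T : Fin (m + 1) → X ≃ᵐ X) (f : Fin (m + 1) → X → ℂ) {s : Fin (m + 1) → ℝ}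
    (hs : ∀ j, s j ∈ Set.Ico (1 / 2 : ℝ) (9 / 16)) (x : X) (n : ℕ) {v : ℝ} (hv : v ∈ Set.Ico (n : ℝ) (n + 1)) :
    mphi T f (s, x) v = (Set.Ico ((n : ℝ) + 9 / 16 - s 0) (n + 10 / 16 - s 0)).indicator (fun _ => mcub T f x n) v := by
  have hs0 : ∀ j, ⌊s j⌋ = 0 := fun j => Int.floor_eq_zero_iff.2 ⟨by linarith [(hs j).1], by linarith [(hs j).2]⟩
  by_cases hI : v ∈ Set.Ico ((n : ℝ) + 9 / 16 - s 0) (n + 10 / 16 - s 0)
  · rw [Set.indicator_of_mem hI]
    have f1 : ∀ j, ⌊s j + v⌋ = (n : ℤ) := by
      intro j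
      rw [Int.floor_eq_iff]
      push_cast
      constructor <;> linarith [hI.1, hI.2, (hs 0).1, (hs 0).2, (hs j).1, (hs j).2]
    have g1 : Int.fract (sh v (s 0)) ∈ Set.Ico (9 / 16 : ℝ) (10 / 16) := by
      rw [fract_sh]
      unfold Int.fract
      rw [f1]
      push_cast
      constructor <;> linarith [hI.1, hI.2]
    unfold mphi mcub
    refine Finset.prod_congr rfl fun j _ => ?_
    unfold mF msusp
    simp only
    by_cases hj : j = 0
    · subst hj
      rw [if_pos rfl, Function.update_self, if_pos g1]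
      unfold ct
      rw [hs0, f1, sub_zero, perm_iter]
      rfl
    · rw [if_neg hj]
      unfold ct
      rw [hs0, f1, sub_zero, perm_iter]
      rfl
  · rw [Set.indicator_of_notMem hI]
    have g1 : Int.fract (sh v (s 0)) ∉ Set.Ico (9 / 16 : ℝ) (10 / 16) := by
      rw [fract_sh]
      intro hfr
      apply hI
      have h1 : s 0 + v = ⌊s 0 + v⌋ + Int.fract (s 0 + v) := (Int.floor_add_fract _).symm
      have h2 : ((⌊s 0 + v⌋ : ℤ) : ℝ) < n + 1 := by linarith [hfr.1, hv.2, (hs 0).2]
      have h3 : (n : ℝ) - 1 < ((⌊s 0 + v⌋ : ℤ) : ℝ) := by linarith [hfr.2, hv.1, (hs 0).1]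
      have h4 : ⌊s 0 + v⌋ = (n : ℤ) := by
        have h5 : ⌊s 0 + v⌋ < (n : ℤ) + 1 := by exact_mod_cast h2
        have h6 : (n : ℤ) - 1 < ⌊s 0 + v⌋ := by exact_mod_cast h3
        omega
      rw [h4] at h1
      push_cast at h1
      constructor <;> linarith [hfr.1, hfr.2]
    unfold mphi
    refine Finset.prod_eq_zero (Finset.mem_univ 0) ?_
    unfold mF msusp
    simp only
    rw [if_true, Function.update_self, if_neg g1]

end Pool.Agent.U527.Et
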