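import Pool.Agent.U527.Et.Grow

set_option autoImplicit false

/-!
The averages over intervals are controlled by the averages along `a P(v)` (converse of `Pool.Agent.Y274.MC.regc`).
-/

namespace Pool.Agent.U527.Et

open MeasureTheory Filter Polynomial
open scoped Topology

/-- derivatives of a polynomial, eventually -/
lemma poly_der (P : Polynomial ℝ) (hd : 0 < P.natDegree) (hl : 0 < P.leadingCoeff) :
    ∃ X : ℝ, 1 ≤ X ∧ ∀ v, X ≤ v → 0 < P.eval v ∧ 0 < P.derivative.eval v ∧ 0 ≤ P.derivative.derivative.eval v ∧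
      v * P.derivative.eval v ≤ 2 * P.natDegree * P.eval v := by
  have h0 := log_deriv_lim P hd
  have hd0 : 0 < (P.natDegree : ℝ) := by exact_mod_cast hd
  have e1 : ∀ᶠ x : ℝ in atTop, (P.natDegree : ℝ) / 2 < x * (P.derivative.eval x / P.eval x) :=
    h0.eventually_const_lt (by linarith)
  have e2 : ∀ᶠ x : ℝ in atTop, x * (P.derivative.eval x / P.eval x) < 2 * P.natDegree :=
    h0.eventually_lt_const (by linarith)
  have e3 : ∀ᶠ x : ℝ in atTop, 0 < P.eval x :=
    (P.tendsto_atTop_of_leadingCoeff_nonneg (natDegree_pos_iff_degree_pos.1 hd) hl.le).eventually_gt_atTop 0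
  have e4 : ∀ᶠ x : ℝ in atTop, 0 ≤ P.derivative.derivative.eval x := by
    have hlc : ∀ Q : Polynomial ℝ, 0 ≤ Q.leadingCoeff → ∀ᶠ x : ℝ in atTop, 0 ≤ Q.eval x := by
      intro Q hQ
      rcases Nat.eq_zero_or_pos Q.natDegree with h | h
      · refine Eventually.of_forall fun x => ?_
        rw [eq_C_of_natDegree_eq_zero h, eval_C]
        rw [leadingCoeff, h] at hQ
        exact hQ
      · exact (Q.tendsto_atTop_of_leadingCoeff_nonneg (natDegree_pos_iff_degree_pos.1 h) hQ).eventually_ge_atTop 0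
    have hder : ∀ Q : Polynomial ℝ, 0 ≤ Q.leadingCoeff → 0 ≤ Q.derivative.leadingCoeff := by
      intro Q hQ
      rcases Nat.eq_zero_or_pos Q.natDegree with h | h
      · rw [eq_C_of_natDegree_eq_zero h]
        simp
      · have hdd : (derivative Q).degree = ((Q.natDegree - 1 : ℕ) : WithBot ℕ) := degree_derivative (by omega)
        have hnd : (derivative Q).natDegree = Q.natDegree - 1 := natDegree_eq_of_degree_eq_some hdd
        rw [leadingCoeff, hnd, coeff_derivative]
        have h1 : Q.natDegree - 1 + 1 = Q.natDegree := by omega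
        rw [h1]
        exact mul_nonneg hQ (by positivity)
    exact hlc _ (hder _ (hder _ hl.le))
  obtain ⟨X, hX⟩ := ((((e1.and e2).and e3).and e4).and (eventually_ge_atTop (1 : ℝ))).exists_forall_of_atTop
  refine ⟨X, (hX X le_rfl).2, fun v hv => ?_⟩
  obtain ⟨⟨⟨⟨a1, a2⟩, a3⟩, a4⟩, a5⟩ := hX v hv
  have hv0 : 0 < v := by linarith
  rw [← mul_div_assoc] at a1 a2
  rw [div_lt_iff₀ a3] at a2
  rw [lt_div_iff₀ a3] at a1
  refine ⟨a3, ?_, a4, a2.le⟩
  have h5 : 0 < v * P.derivative.eval v := lt_trans (by positivity) a1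
  exact (mul_pos_iff_of_pos_left hv0).1 h5

/-- the converse of (REGC) -/
theorem rev (P : Polynomial ℝ) (hd : 0 < P.natDegree) (hl : 0 < P.leadingCoeff) : ∃ K : ℝ, 0 < K ∧ ∀ a : ℝ, 0 < a →
    ∀ G : ℝ → ℂ, Continuous G → (∀ v, ‖G v‖ ≤ 1) → ∀ (L : ℂ) (η : ℝ), 0 ≤ η →
    (∀ᶠ N : ℕ in atTop, ‖(1 / (N : ℂ)) * (∫ v in (0 : ℝ)..N, G (a * P.eval v)) - L‖ ≤ η) → ∀ ε : ℝ, 0 < ε →
    ∀ᶠ V : ℝ in atTop, ‖(1 / (V : ℂ)) * (∫ v in (0 : ℝ)..V, G v) - L‖ ≤ ε + K * η := by
  obtain ⟨X, hX1, hX⟩ := poly_der P hd hl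
  have hd0 : 0 < (P.natDegree : ℝ) := by exact_mod_cast hd
  obtain ⟨D, hD⟩ : ∃ D : ℝ, D = 4 * P.natDegree := ⟨_, rfl⟩
  have hD0 : 0 < D := by rw [hD]; positivity
  refine ⟨D, hD0, ?_⟩
  intro a ha G hG hG1 L η hη hN ε hε
  have hX0 : 0 < X := by linarith
  -- the function `H = G - L` along the curve and its primitive
  obtain ⟨H, hH⟩ : ∃ H : ℝ → ℂ, H = fun w => G w - L := ⟨_, rfl⟩
  have hHc : Continuous H := by rw [hH]; exact hG.sub continuous_const
  have hHb : ∀ w, ‖H w‖ ≤ 1 + ‖L‖ := fun w => by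
    rw [hH]
    exact (norm_sub_le _ _).trans (by linarith [hG1 w])
  have hPc : Continuous fun v : ℝ => a * P.eval v := continuous_const.mul P.continuous
  have hHPc : Continuous fun v : ℝ => H (a * P.eval v) := hHc.comp hPc
  obtain ⟨J, hJ⟩ : ∃ J : ℝ → ℂ, J = fun w => ∫ s in (0 : ℝ)..w, H (a * P.eval s) := ⟨_, rfl⟩
  have hJd : ∀ w, HasDerivAt J (H (a * P.eval w)) w := fun w => by
    rw [hJ]
    exact intervalIntegral.integral_hasDerivAt_right (hHPc.intervalIntegrable _ _)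
      hHPc.stronglyMeasurable.stronglyMeasurableAtFilter hHPc.continuousAt
  have hJc : Continuous J := continuous_iff_continuousAt.2 fun w => (hJd w).continuousAt
  -- bound of `J` at natural numbers, then everywhere
  obtain ⟨δ, hδ⟩ : ∃ δ : ℝ, δ = ε / (3 * D) := ⟨_, rfl⟩
  have hδ0 : 0 < δ := by rw [hδ]; positivity
  obtain ⟨N₀, hN₀⟩ := hN.exists_forall_of_atTop
  obtain ⟨B, hB⟩ : ∃ B : ℝ, B = 1 + ‖L‖ := ⟨_, rfl⟩
  have hB0 : 0 < B := by rw [hB]; positivity
  have hJN : ∀ N : ℕ, N₀ ≤ N → 1 ≤ N → ‖J N‖ ≤ η * N := by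
    intro N hN1 hN2
    have hw0 : (N : ℂ) ≠ 0 := by
      have : N ≠ 0 := by omega
      exact_mod_cast this
    have h3 := hN₀ N hN1
    have h4 : J N = (N : ℂ) * ((1 / (N : ℂ)) * (∫ v in (0 : ℝ)..N, G (a * P.eval v)) - L) := by
      have hi : IntervalIntegrable (fun v => G (a * P.eval v)) volume 0 N :=
        (hG.comp hPc).intervalIntegrable _ _
      rw [hJ, hH]
      simp only
      rw [intervalIntegral.integral_sub hi (by simp)]
      simp only [intervalIntegral.integral_const, sub_zero, Complex.real_smul, Complex.ofReal_natCast]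
      field_simp
    rw [h4, norm_mul, Complex.norm_natCast, mul_comm η]
    exact mul_le_mul_of_nonneg_left h3 (by positivity)
  have hJb : ∃ w₀ : ℝ, X ≤ w₀ ∧ ∀ w, w₀ ≤ w → ‖J w‖ ≤ (η + δ) * w := by
    refine ⟨max (max X (N₀ + 1)) (max 2 (B / δ)), (le_max_left _ _).trans (le_max_left _ _), fun w hw => ?_⟩
    have w1 : (N₀ : ℝ) + 1 ≤ w := (le_max_right _ _).trans ((le_max_left _ _).trans hw)
    have w2 : 2 ≤ w := (le_max_left _ _).trans ((le_max_right _ _).trans hw)
    have w3 : B / δ ≤ w := (le_max_right _ _).trans ((le_max_right _ _).trans hw)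
    have f1 : (⌊w⌋₊ : ℝ) ≤ w := Nat.floor_le (by linarith)
    have f2 : w < ⌊w⌋₊ + 1 := Nat.lt_floor_add_one w
    have g1 : N₀ ≤ ⌊w⌋₊ := Nat.le_floor (by linarith)
    have g2 : 1 ≤ ⌊w⌋₊ := Nat.le_floor (by push_cast; linarith)
    have h1 := hJN ⌊w⌋₊ g1 g2
    have h2 : J w = J ⌊w⌋₊ + ∫ s in (⌊w⌋₊ : ℝ)..w, H (a * P.eval s) := by
      rw [hJ]
      simp only
      rw [intervalIntegral.integral_add_adjacent_intervals (hHPc.intervalIntegrable _ _)
        (hHPc.intervalIntegrable _ _)]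
    have h3 : ‖∫ s in (⌊w⌋₊ : ℝ)..w, H (a * P.eval s)‖ ≤ B * |w - ⌊w⌋₊| :=
      intervalIntegral.norm_integral_le_of_norm_le_const fun s _ => by rw [hB]; exact hHb _
    have h4 : |w - ⌊w⌋₊| ≤ 1 := by
      rw [abs_of_nonneg (by linarith)]
      linarith
    have h5 : B ≤ δ * w := by
      rw [div_le_iff₀ hδ0] at w3
      linarith
    have h6 : B * |w - ⌊w⌋₊| ≤ B := by nlinarith [abs_nonneg (w - ⌊w⌋₊)]
    rw [h2]
    calc _ ≤ ‖J ⌊w⌋₊‖ + ‖∫ s in (⌊w⌋₊ : ℝ)..w, H (a * P.eval s)‖ := norm_add_le _ _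
      _ ≤ η * ⌊w⌋₊ + B := by linarith
      _ ≤ η * w + δ * w := by nlinarith
      _ = _ := by ring
  obtain ⟨w₀, hw₀X, hJb⟩ := hJb
  have hw₀0 : 0 < w₀ := by linarith
  -- derivatives of the curve
  obtain ⟨P', hP'⟩ : ∃ P' : Polynomial ℝ, P' = P.derivative := ⟨_, rfl⟩
  obtain ⟨P'', hP''⟩ : ∃ P'' : Polynomial ℝ, P'' = P.derivative.derivative := ⟨_, rfl⟩
  have dP : ∀ v, HasDerivAt (fun v => P.eval v) (P'.eval v) v := fun v => by rw [hP']; exact P.hasDerivAt v
  have dP' : ∀ v, HasDerivAt (fun v => P'.eval v) (P''.eval v) v := fun v => by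
    rw [hP', hP'']; exact P.derivative.hasDerivAt v
  -- the main identity, for `w ≥ w₀`
  have hmain : ∀ w, w₀ ≤ w → ‖∫ u in (a * P.eval w₀)..(a * P.eval w), H u‖ ≤
      a * (η + δ) * (D * P.eval w) := by
    intro w hw
    have hs : ∫ v in w₀..w, (a * P'.eval v) • H (a * P.eval v) = ∫ u in (a * P.eval w₀)..(a * P.eval w), H u := by
      have := intervalIntegral.integral_comp_smul_deriv (a := w₀) (b := w) (f := fun v => a * P.eval v)
        (f' := fun v => a * P'.eval v) (g := H) (fun v _ => (dP v).const_mul a)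
        (continuous_const.mul P'.continuous).continuousOn hHc
      simpa only [Function.comp] using this
    have hip : ∫ v in w₀..w, (a * P'.eval v) • H (a * P.eval v) =
        (a * P'.eval w) • J w - (a * P'.eval w₀) • J w₀ - ∫ v in w₀..w, (a * P''.eval v) • J v := by
      refine intervalIntegral.integral_smul_deriv_eq_deriv_smul (fun v _ => (dP' v).const_mul a) (fun v _ => hJd v)
        ?_ ?_
      · exact (continuous_const.mul P''.continuous).intervalIntegrable _ _
      · exact hHPc.intervalIntegrable _ _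
    rw [← hs, hip]
    have q1 : ‖(a * P'.eval w) • J w‖ ≤ a * P'.eval w * ((η + δ) * w) := by
      have h1 := (hX w (hw₀X.trans hw)).2.1
      rw [← hP'] at h1
      rw [norm_smul, Real.norm_of_nonneg (by positivity)]
      exact mul_le_mul_of_nonneg_left (hJb w hw) (by positivity)
    have q2 : ‖(a * P'.eval w₀) • J w₀‖ ≤ a * P'.eval w₀ * ((η + δ) * w₀) := by
      have h1 := (hX w₀ hw₀X).2.1
      rw [← hP'] at h1
      rw [norm_smul, Real.norm_of_nonneg (by positivity)]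
      exact mul_le_mul_of_nonneg_left (hJb w₀ le_rfl) (by positivity)
    have q3 : ‖∫ v in w₀..w, (a * P''.eval v) • J v‖ ≤ ∫ v in w₀..w, a * P''.eval v * ((η + δ) * w) := by
      refine intervalIntegral.norm_integral_le_of_norm_le hw (ae_of_all _ fun v hv => ?_) ?_
      · have h1 := (hX v (hw₀X.trans hv.1.le)).2.2.1
        rw [← hP''] at h1
        rw [norm_smul, Real.norm_of_nonneg (by positivity)]
        refine mul_le_mul_of_nonneg_left ((hJb v hv.1.le).trans ?_) (by positivity)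
        exact mul_le_mul_of_nonneg_left hv.2 (by positivity)
      · exact ((continuous_const.mul P''.continuous).mul continuous_const).intervalIntegrable _ _
    have q4 : ∫ v in w₀..w, a * P''.eval v * ((η + δ) * w) = a * (P'.eval w - P'.eval w₀) * ((η + δ) * w) := by
      rw [intervalIntegral.integral_mul_const, intervalIntegral.integral_const_mul,
        intervalIntegral.integral_eq_sub_of_hasDerivAt (fun v _ => dP' v) (P''.continuous.intervalIntegrable _ _)]
    rw [q4] at q3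
    have h7 := (hX w (hw₀X.trans hw)).2.2.2
    have h8 := (hX w₀ hw₀X).2.1
    rw [← hP'] at h7 h8
    have h9 : 0 ≤ a * (η + δ) := by positivity
    calc _ ≤ ‖(a * P'.eval w) • J w‖ + ‖(a * P'.eval w₀) • J w₀‖ + ‖∫ v in w₀..w, (a * P''.eval v) • J v‖ :=
          (norm_sub_le _ _).trans (add_le_add (norm_sub_le _ _) le_rfl)
      _ ≤ a * P'.eval w * ((η + δ) * w) + a * P'.eval w₀ * ((η + δ) * w₀) +
          a * (P'.eval w - P'.eval w₀) * ((η + δ) * w) := by linarith
      _ ≤ a * (η + δ) * (2 * (w * P'.eval w)) := by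
          have h10 : P'.eval w₀ * w₀ ≤ P'.eval w₀ * w := mul_le_mul_of_nonneg_left hw h8.le
          have h11 := mul_le_mul_of_nonneg_left h10 h9
          nlinarith
      _ ≤ a * (η + δ) * (D * P.eval w) := by
          refine mul_le_mul_of_nonneg_left ?_ h9
          rw [hD]
          linarith
  -- conclusion
  have hPt : Tendsto (fun w : ℝ => a * P.eval w) atTop atTop :=
    (P.tendsto_atTop_of_leadingCoeff_nonneg (natDegree_pos_iff_degree_pos.1 hd) hl.le).const_mul_atTop ha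
  obtain ⟨U, hU⟩ : ∃ U : ℝ, U = a * P.eval w₀ := ⟨_, rfl⟩
  have hU0 : 0 < U := by
    rw [hU]
    have := (hX w₀ hw₀X).1
    positivity
  have hev : ∀ᶠ V : ℝ in atTop, U ≤ V ∧ 3 * (B * U) / ε ≤ V := (eventually_ge_atTop _).and (eventually_ge_atTop _)
  filter_upwards [hev] with V hV
  obtain ⟨hV1, hV2⟩ := hV
  have hV0 : 0 < V := by linarith
  obtain ⟨w, hw, hwV⟩ : ∃ w, w₀ ≤ w ∧ a * P.eval w = V := by
    obtain ⟨w₁, hw₁⟩ := ((hPt.eventually_ge_atTop V).and (eventually_ge_atTop w₀)).exists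
    have := intermediate_value_Icc hw₁.2 hPc.continuousOn
    obtain ⟨w, hw, hw2⟩ := this ⟨by rw [← hU]; exact hV1, hw₁.1⟩
    exact ⟨w, hw.1, hw2⟩
  have h1 := hmain w hw
  rw [← hU, hwV] at h1
  have h2 : ∫ u in (0 : ℝ)..V, H u = (∫ u in (0 : ℝ)..U, H u) + ∫ u in U..V, H u :=
    (intervalIntegral.integral_add_adjacent_intervals (hHc.intervalIntegrable _ _) (hHc.intervalIntegrable _ _)).symm
  have h3 : ‖∫ u in (0 : ℝ)..U, H u‖ ≤ B * U := by
    have := intervalIntegral.norm_integral_le_of_norm_le_const (a := (0 : ℝ)) (b := U) (f := H) (C := B)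
      fun s _ => by rw [hB]; exact hHb _
    rwa [sub_zero, abs_of_pos hU0] at this
  have hVc : (V : ℂ) ≠ 0 := by exact_mod_cast hV0.ne'
  have h4 : (1 / (V : ℂ)) * (∫ v in (0 : ℝ)..V, G v) - L = (1 / (V : ℂ)) * ∫ u in (0 : ℝ)..V, H u := by
    rw [hH]
    simp only
    rw [intervalIntegral.integral_sub (hG.intervalIntegrable _ _) (by simp)]
    simp only [intervalIntegral.integral_const, sub_zero, Complex.real_smul]
    field_simp
  rw [h4, h2, norm_mul, norm_div, norm_one, Complex.norm_real, Real.norm_of_nonneg hV0.le, one_div,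
    inv_mul_le_iff₀ hV0]
  have h5 : a * (η + δ) * (D * P.eval w) = (η + δ) * D * V := by
    rw [← hwV]
    ring
  rw [h5] at h1
  have h6 : δ * D = ε / 3 := by
    rw [hδ]
    field_simp
  have h7 : B * U ≤ V * (ε / 3) := by
    rw [div_le_iff₀ hε] at hV2
    linarith
  calc _ ≤ ‖∫ u in (0 : ℝ)..U, H u‖ + ‖∫ u in U..V, H u‖ := norm_add_le _ _
    _ ≤ V * (ε / 3) + (η + δ) * D * V := by linarith
    _ = V * (ε / 3) + (η * D + ε / 3) * V := by rw [add_mul η δ D, h6]
    _ ≤ V * (ε + D * η) := by nlinarith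

end Pool.Agent.U527.Et
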