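import Pool.Agent.U527.Et.Rev
import Pool.Agent.Y274.MC.Regc
import Pool.Agent.Y571.MC.Poly

set_option autoImplicit false

/-!
Approximation at one point: averages over intervals and discrete averages along a polynomial have the same limits.
-/

namespace Pool.Agent.U527.Et

open MeasureTheory Filter Finset
open scoped Topology

/-- averages over intervals -/
noncomputable def ci (F : ℝ → ℂ) (V : ℝ) : ℂ := (1 / (V : ℂ)) * ∫ v in (0 : ℝ)..V, F v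

/-- discrete averages along `a P(n)` -/
noncomputable def di (P : Polynomial ℝ) (F : ℝ → ℂ) (a : ℝ) (N : ℕ) : ℂ :=
  (1 / (N : ℂ)) * ∑ n ∈ Icc 1 N, F (a * P.eval (n : ℝ))

/-- continuous averages along `a P(v)` -/
noncomputable def cp (P : Polynomial ℝ) (F : ℝ → ℂ) (a : ℝ) (N : ℕ) : ℂ :=
  (1 / (N : ℂ)) * ∫ v in (0 : ℝ)..N, F (a * P.eval v)

theorem two_way (P : Polynomial ℝ) (hd : 0 < P.natDegree) (hl : 0 < P.leadingCoeff) {a : ℝ} (ha : 0 < a)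
    {Ff : ℝ → ℂ} {Fg : ℕ → ℝ → ℂ} (hc : ∀ i, Continuous (Fg i)) (h1 : ∀ i v, ‖Fg i v‖ ≤ 1) {ψ : ℕ → ℝ}
    (hψ : ∀ k : ℕ, ∃ i, ψ i < 1 / ((k : ℝ) + 1)) (hψ0 : ∀ i, 0 ≤ ψ i)
    (hlin : ∀ i, ∀ δ : ℝ, 0 < δ → ∀ᶠ V : ℝ in atTop, ‖ci Ff V - ci (Fg i) V‖ ≤ ψ i + δ)
    (hdis : ∀ i, ∀ δ : ℝ, 0 < δ → ∀ᶠ N : ℕ in atTop, ‖di P Ff a N - di P (Fg i) a N‖ ≤ ψ i + δ)
    (hgood : ∀ i, Tendsto (fun N : ℕ => di P (Fg i) a N - cp P (Fg i) a N) atTop (𝓝 0)) (L : ℂ) :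
    Tendsto (fun N : ℕ => di P Ff a N) atTop (𝓝 L) ↔ Tendsto (fun V : ℝ => ci Ff V) atTop (𝓝 L) := by
  obtain ⟨K1, hK1, hreg⟩ := Pool.Agent.Y274.MC.regc (fun v => P.eval v) (Pool.Agent.Y571.MC.poly P hd hl)
    P.continuous.measurable
  obtain ⟨K2, hK2, hrev⟩ := rev P hd hl
  have hclose : ∀ {α : Type} {l : Filter α} {u : α → ℂ}, Tendsto u l (𝓝 L) → ∀ δ : ℝ, 0 < δ →
      ∀ᶠ t in l, ‖u t - L‖ ≤ δ := by
    intro α l u hu δ hδ
    have h2 := Metric.tendsto_nhds.1 hu δ hδ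
    filter_upwards [h2] with t ht
    rw [dist_eq_norm] at ht
    exact ht.le
  have hgood' : ∀ i, ∀ δ : ℝ, 0 < δ → ∀ᶠ N : ℕ in atTop, ‖di P (Fg i) a N - cp P (Fg i) a N‖ ≤ δ := by
    intro i δ hδ
    have h2 := Metric.tendsto_nhds.1 (hgood i) δ hδ
    filter_upwards [h2] with t ht
    rw [dist_zero_right] at ht
    exact ht.le
  -- the choice of the approximation
  have hch : ∀ K ε : ℝ, 0 < K → 0 < ε → ∃ i, (2 + K) * ψ i < ε := by
    intro K ε hK hε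
    obtain ⟨k, hk⟩ := exists_nat_one_div_lt (show 0 < ε / (2 + K) by positivity)
    obtain ⟨i, hi⟩ := hψ k
    refine ⟨i, ?_⟩
    have h3 : ψ i < ε / (2 + K) := hi.trans hk
    rw [lt_div_iff₀ (by linarith)] at h3
    linarith
  constructor
  · intro h
    rw [Metric.tendsto_nhds]
    intro ε hε
    obtain ⟨i, hi⟩ := hch K2 (ε / 2) hK2 (by linarith)
    obtain ⟨δ, hδd⟩ : ∃ δ : ℝ, δ = ε / (2 * (4 + 3 * K2)) := ⟨_, rfl⟩
    have hδ : 0 < δ := by rw [hδd]; positivity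
    have hδ2 : δ * (4 + 3 * K2) = ε / 2 := by
      rw [hδd]
      field_simp
    have e1 : ∀ᶠ N : ℕ in atTop, ‖(1 / (N : ℂ)) * (∫ v in (0 : ℝ)..N, Fg i (a * P.eval v)) - L‖ ≤ ψ i + 3 * δ := by
      filter_upwards [hclose h δ hδ, hdis i δ hδ, hgood' i δ hδ] with N n1 n2 n3
      have e2 : (1 / (N : ℂ)) * (∫ v in (0 : ℝ)..N, Fg i (a * P.eval v)) - L =
          (di P Ff a N - L) - (di P Ff a N - di P (Fg i) a N) - (di P (Fg i) a N - cp P (Fg i) a N) := by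
        unfold cp
        ring
      rw [e2]
      refine ((norm_sub_le _ _).trans (add_le_add (norm_sub_le _ _) le_rfl)).trans ?_
      linarith
    have hη : 0 ≤ ψ i + 3 * δ := by have := hψ0 i; linarith
    have e3 := hrev a ha (Fg i) (hc i) (h1 i) L (ψ i + 3 * δ) hη e1 δ hδ
    filter_upwards [e3, hlin i δ hδ] with V v1 v2
    rw [dist_eq_norm]
    have e4 : ci Ff V - L = (ci Ff V - ci (Fg i) V) + ((1 / (V : ℂ)) * (∫ v in (0 : ℝ)..V, Fg i v) - L) := by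
      unfold ci
      ring
    rw [e4]
    have e5 := norm_add_le (ci Ff V - ci (Fg i) V) ((1 / (V : ℂ)) * (∫ v in (0 : ℝ)..V, Fg i v) - L)
    have e6 := hψ0 i
    nlinarith
  · intro h
    rw [Metric.tendsto_nhds]
    intro ε hε
    obtain ⟨i, hi⟩ := hch K1 (ε / 2) hK1 (by linarith)
    obtain ⟨δ, hδd⟩ : ∃ δ : ℝ, δ = ε / (2 * (4 + 3 * K1)) := ⟨_, rfl⟩
    have hδ : 0 < δ := by rw [hδd]; positivity
    have hδ2 : δ * (4 + 3 * K1) = ε / 2 := by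
      rw [hδd]
      field_simp
    have e1 : ∀ᶠ V : ℝ in atTop, ‖(1 / (V : ℂ)) * (∫ v in (0 : ℝ)..V, Fg i v) - L‖ ≤ ψ i + 3 * δ := by
      filter_upwards [hclose h δ hδ, hlin i δ hδ] with V n1 n2
      have e2 : (1 / (V : ℂ)) * (∫ v in (0 : ℝ)..V, Fg i v) - L = (ci Ff V - L) - (ci Ff V - ci (Fg i) V) := by
        unfold ci
        ring
      rw [e2]
      refine (norm_sub_le _ _).trans ?_
      linarith
    have hη : 0 ≤ ψ i + 3 * δ := by have := hψ0 i; linarith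
    have e3 := hreg a ha (Fg i) (hc i) (h1 i) L (ψ i + 3 * δ) hη e1 δ hδ
    filter_upwards [e3, hdis i δ hδ, hgood' i δ hδ] with N v1 v2 v3
    rw [dist_eq_norm]
    have e4 : di P Ff a N - L = (di P Ff a N - di P (Fg i) a N) + (di P (Fg i) a N - cp P (Fg i) a N) +
        ((1 / (N : ℂ)) * (∫ v in (0 : ℝ)..N, Fg i (a * P.eval v)) - L) := by
      unfold cp
      ring
    rw [e4]
    have e5 := (norm_add_le ((di P Ff a N - di P (Fg i) a N) + (di P (Fg i) a N - cp P (Fg i) a N))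
      ((1 / (N : ℂ)) * (∫ v in (0 : ℝ)..N, Fg i (a * P.eval v)) - L)).trans
      (add_le_add (norm_add_le _ _) le_rfl)
    have e6 := hψ0 i
    nlinarith

end Pool.Agent.U527.Et
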