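import Pool.Agent.U527.Et.Fam
import Pool.Agent.U527.Et.Two

set_option autoImplicit false

/-!
Approximation in `L¹` at a fixed time.
-/

namespace Pool.Agent.U527.Et

open MeasureTheory Filter Finset
open Pool.Agent.Y957.MC (IsFlow flowInv smo)
open Pool.Agent.Y312.MC (flowInv_le ii_orb)
open Pool.Agent.U587.ET (prod_diff_c norm_prod_le_one exists_small)
open Pool.Agent.U587.DX (Sg lim_int)
open scoped ENNReal NNReal Topology

universe u

/-- the difference of the discrete and of the continuous averages along `a P` -/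
noncomputable def dd (P : Polynomial ℝ) (F : ℝ → ℂ) (a : ℝ) (N : ℕ) : ℂ :=
  (1 / (N : ℂ)) * (∑ n ∈ Icc 1 N, F (a * P.eval (n : ℝ)) - ∫ v in (0 : ℝ)..N, F (a * P.eval v))

lemma dd_eq (P : Polynomial ℝ) (F : ℝ → ℂ) (a : ℝ) (N : ℕ) : dd P F a N = di P F a N - cp P F a N := by
  unfold dd di cp
  ring

lemma ii_poly {F : ℝ → ℂ} (hF : Measurable F) {C : ℝ} (h1 : ∀ v, ‖F v‖ ≤ C) (P : Polynomial ℝ) (a s t : ℝ) :
    IntervalIntegrable (fun v => F (a * P.eval v)) volume s t := by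
  refine (intervalIntegrable_const (c := C)).mono_fun ?_ (ae_of_all _ fun v => ?_)
  · exact (hF.comp ((Pm P).const_mul a)).aestronglyMeasurable
  · exact (h1 _).trans (le_abs_self _)

lemma ii_poly_r {F : ℝ → ℝ} (hF : Measurable F) {C : ℝ} (h1 : ∀ v, |F v| ≤ C) (P : Polynomial ℝ) (a s t : ℝ) :
    IntervalIntegrable (fun v => F (a * P.eval v)) volume s t := by
  refine (intervalIntegrable_const (c := C)).mono_fun ?_ (ae_of_all _ fun v => ?_)
  · exact (hF.comp ((Pm P).const_mul a)).aestronglyMeasurable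
  · exact (h1 _).trans (le_abs_self _)

lemma dd_diff {P : Polynomial ℝ} {a : ℝ} {Z Z' : ℝ → ℂ} {E : ℝ → ℝ} {C : ℝ} (hZ : Measurable Z) (hZ' : Measurable Z')
    (h1 : ∀ v, ‖Z v‖ ≤ 1) (h1' : ∀ v, ‖Z' v‖ ≤ 1) (hE : Measurable E) (hEb : ∀ v, |E v| ≤ C)
    (h : ∀ v, ‖Z v - Z' v‖ ≤ E v) (N : ℕ) :
    ‖dd P Z a N - dd P Z' a N‖ ≤ (1 / (N : ℝ)) * (∑ n ∈ Icc 1 N, E (a * P.eval (n : ℝ)) +
      ∫ v in (0 : ℝ)..N, E (a * P.eval v)) := by
  have hN0 : (0 : ℝ) ≤ N := Nat.cast_nonneg N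
  have e1 : dd P Z a N - dd P Z' a N = (1 / (N : ℂ)) * (∑ n ∈ Icc 1 N, (Z (a * P.eval (n : ℝ)) -
      Z' (a * P.eval (n : ℝ))) - ∫ v in (0 : ℝ)..N, (Z (a * P.eval v) - Z' (a * P.eval v))) := by
    unfold dd
    rw [intervalIntegral.integral_sub (ii_poly hZ h1 P a _ _) (ii_poly hZ' h1' P a _ _), Finset.sum_sub_distrib]
    ring
  rw [e1, norm_mul, norm_div, norm_one, Complex.norm_natCast]
  refine mul_le_mul_of_nonneg_left ((norm_sub_le _ _).trans (add_le_add ?_ ?_)) (by positivity)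
  · exact (norm_sum_le _ _).trans (Finset.sum_le_sum fun n _ => h _)
  · exact intervalIntegral.norm_integral_le_of_norm_le hN0 (ae_of_all _ fun v _ => h _) (ii_poly_r hE hEb P a _ _)

lemma dd_bd {P : Polynomial ℝ} {a : ℝ} {Z : ℝ → ℂ} (h1 : ∀ v, ‖Z v‖ ≤ 1) (N : ℕ) : ‖dd P Z a N‖ ≤ 2 := by
  unfold dd
  rw [norm_mul, norm_div, norm_one, Complex.norm_natCast]
  rcases Nat.eq_zero_or_pos N with hN | hN
  · rw [hN]; simp
  · have hN0 : (0 : ℝ) < N := by exact_mod_cast hN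
    rw [one_div, inv_mul_le_iff₀ hN0]
    refine (norm_sub_le _ _).trans ?_
    have e1 : ‖∑ n ∈ Icc 1 N, Z (a * P.eval (n : ℝ))‖ ≤ N := by
      refine (norm_sum_le _ _).trans ((Finset.sum_le_sum fun n _ => h1 _).trans ?_)
      rw [Finset.sum_const, Nat.card_Icc, nsmul_eq_mul, mul_one]
      exact_mod_cast (show N + 1 - 1 ≤ N by omega)
    have e2 : ‖∫ v in (0 : ℝ)..N, Z (a * P.eval v)‖ ≤ 1 * |(N : ℝ) - 0| :=
      intervalIntegral.norm_integral_le_of_norm_le_const fun v _ => h1 _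
    rw [sub_zero, abs_of_pos hN0] at e2
    linarith

section mean

variable {X : Type u} [mX : MeasurableSpace X] {μ : Measure X}

lemma dd_meas {P : Polynomial ℝ} {a : ℝ} {Z : X → ℝ → ℂ} (hZ : Measurable fun q : X × ℝ => Z q.1 q.2) (N : ℕ) :
    Measurable fun x => dd P (Z x) a N := by
  unfold dd
  refine Measurable.const_mul (Measurable.sub ?_ ?_) _
  · refine Finset.measurable_sum _ fun n _ => ?_
    exact hZ.comp (measurable_id.prodMk measurable_const)
  · have h1 : (fun x => ∫ v in (0 : ℝ)..N, Z x (a * P.eval v)) =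
        fun x => ∫ v in Set.Ioc (0 : ℝ) N, Z x (a * P.eval v) := by
      funext x
      exact intervalIntegral.integral_of_le (Nat.cast_nonneg N)
    rw [h1]
    have h2 : StronglyMeasurable (fun r : X × ℝ => Z r.1 (a * P.eval r.2)) :=
      (hZ.comp (measurable_fst.prodMk (((Pm P).comp measurable_snd).const_mul a))).stronglyMeasurable
    exact (h2.integral_prod_right' (ν := volume.restrict (Set.Ioc (0 : ℝ) N))).measurable

/-- the mean of the difference -/
lemma dd_mean [IsProbabilityMeasure μ] {P : Polynomial ℝ} {a : ℝ} {Z Z' : X → ℝ → ℂ} {E : X → ℝ → ℝ} {C e : ℝ}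
    (hZ : Measurable fun q : X × ℝ => Z q.1 q.2) (hZ' : Measurable fun q : X × ℝ => Z' q.1 q.2)
    (h1 : ∀ x v, ‖Z x v‖ ≤ 1) (h1' : ∀ x v, ‖Z' x v‖ ≤ 1) (hE : Measurable fun q : X × ℝ => E q.1 q.2)
    (hEb : ∀ x v, |E x v| ≤ C) (h : ∀ x v, ‖Z x v - Z' x v‖ ≤ E x v) (he : ∀ v, ∫ x, E x v ∂μ = e) (N : ℕ) :
    ∫ x, ‖dd P (Z x) a N - dd P (Z' x) a N‖ ∂μ ≤ 2 * e := by
  have hN0 : (0 : ℝ) ≤ N := Nat.cast_nonneg N
  have he0 : 0 ≤ e := by
    rw [← he 0]
    exact integral_nonneg fun x => (norm_nonneg _).trans (h x 0)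
  have hsec : ∀ x, Measurable (E x) := fun x => hE.comp (measurable_const.prodMk measurable_id)
  have hsecZ : ∀ x, Measurable (Z x) := fun x => hZ.comp (measurable_const.prodMk measurable_id)
  have hsecZ' : ∀ x, Measurable (Z' x) := fun x => hZ'.comp (measurable_const.prodMk measurable_id)
  have hEi : ∀ v, Integrable (fun x => E x v) μ := fun v => by
    have hm : Measurable fun x => E x v := hE.comp (measurable_id.prodMk measurable_const)
    exact Integrable.of_bound hm.aestronglyMeasurable C (ae_of_all _ fun x => hEb x v)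
  have hEi2 : Integrable (Function.uncurry fun (x : X) (v : ℝ) => E x (a * P.eval v))
      (μ.prod (volume.restrict (Set.Ioc (0 : ℝ) N))) := by
    have hm : Measurable (Function.uncurry fun (x : X) (v : ℝ) => E x (a * P.eval v)) :=
      hE.comp (measurable_fst.prodMk (((Pm P).comp measurable_snd).const_mul a))
    exact Integrable.of_bound hm.aestronglyMeasurable C (ae_of_all _ fun q => hEb _ _)
  have hI1 : Integrable (fun x => ∑ n ∈ Icc 1 N, E x (a * P.eval (n : ℝ))) μ := integrable_finsetSum _ fun n _ => hEi _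
  have hI2 : Integrable (fun x => ∫ v in Set.Ioc (0 : ℝ) N, E x (a * P.eval v)) μ := hEi2.integral_prod_left
  have hpt : ∀ x, ‖dd P (Z x) a N - dd P (Z' x) a N‖ ≤ (1 / (N : ℝ)) * (∑ n ∈ Icc 1 N, E x (a * P.eval (n : ℝ)) +
      ∫ v in Set.Ioc (0 : ℝ) N, E x (a * P.eval v)) := fun x => by
    have h5 := dd_diff (P := P) (a := a) (hsecZ x) (hsecZ' x) (h1 x) (h1' x) (hsec x) (hEb x) (h x) N
    rwa [intervalIntegral.integral_of_le hN0] at h5
  have hstep : ∫ x, ‖dd P (Z x) a N - dd P (Z' x) a N‖ ∂μ ≤ ∫ x, (1 / (N : ℝ)) * (∑ n ∈ Icc 1 N,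
      E x (a * P.eval (n : ℝ)) + ∫ v in Set.Ioc (0 : ℝ) N, E x (a * P.eval v)) ∂μ :=
    integral_mono_of_nonneg (ae_of_all _ fun x => norm_nonneg _) ((hI1.add hI2).const_mul _) (ae_of_all _ hpt)
  refine hstep.trans ?_
  rw [integral_const_mul, integral_add hI1 hI2, integral_finsetSum _ fun n _ => hEi _, integral_integral_swap hEi2]
  simp only [he]
  rw [Finset.sum_const, Nat.card_Icc, nsmul_eq_mul, integral_const]
  rcases Nat.eq_zero_or_pos N with hN | hN
  · rw [hN]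
    simp only [Nat.cast_zero, div_zero, zero_mul]
    positivity
  · have hN1 : (0 : ℝ) < N := by exact_mod_cast hN
    have e3 : (volume.restrict (Set.Ioc (0 : ℝ) N)).real Set.univ = N := by
      rw [measureReal_restrict_apply_univ, Real.volume_real_Ioc_of_le hN0, sub_zero]
    have e4 : ((N + 1 - 1 : ℕ) : ℝ) = N := by norm_num
    rw [e3, e4, smul_eq_mul, one_div, inv_mul_le_iff₀ hN1]
    linarith

/-- the mean of the product of norms of differences -/
lemma mean_E [IsProbabilityMeasure μ] {m : ℕ} {τ : Fin m → ℝ → X → X} (hτ : ∀ j, IsFlow μ (τ j))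
    {E : Fin m → X → ℝ} (hE : ∀ j, Measurable (E j)) (hEb : ∀ j x, |E j x| ≤ 2) (v : ℝ) :
    ∫ x, ∑ j, E j (τ j v x) ∂μ = ∑ j, ∫ x, E j x ∂μ := by
  rw [integral_finsetSum]
  · refine Finset.sum_congr rfl fun j _ => ?_
    have h5 := (hτ j).mp v
    rw [← integral_map h5.measurable.aemeasurable (by rw [h5.map_eq]; exact (hE j).aestronglyMeasurable), h5.map_eq]
  · intro j _
    exact Integrable.of_bound ((hE j).comp ((hτ j).mp v).measurable).aestronglyMeasurable 2 (ae_of_all _ fun x => hEb _ _)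

/-- mean square transfer -/
theorem tr_L [IsProbabilityMeasure μ] {m : ℕ} {τ : Fin m → ℝ → X → X} (hτ : ∀ j, IsFlow μ (τ j))
    {P : Polynomial ℝ} {a : ℝ} {f : Fin m → X → ℂ} (hf : ∀ j, Measurable (f j)) (hf1 : ∀ j x, ‖f j x‖ ≤ 1)
    {g : ℕ → Fin m → X → ℂ} (hg : ∀ i j, Measurable (g i j)) (hg1 : ∀ i j x, ‖g i j x‖ ≤ 1)
    (hfg : ∀ j, Tendsto (fun i => ∫ x, ‖f j x - g i j x‖ ∂μ) atTop (𝓝 0))
    (h : ∀ i, Good' μ P (fun x v => ∏ j, g i j (τ j v x)) a) :
    Tendsto (fun N : ℕ => ∫ x, ‖dd P (fun v => ∏ j, f j (τ j v x)) a N‖ ^ 2 ∂μ) atTop (𝓝 0) := by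
  have hZm : ∀ F : Fin m → X → ℂ, (∀ j, Measurable (F j)) →
      Measurable (fun q : X × ℝ => ∏ j, F j (τ j q.2 q.1)) := by
    intro F hF
    refine Finset.measurable_prod _ fun j _ => ?_
    exact (hF j).comp ((hτ j).meas.comp measurable_swap)
  have hZ1 : ∀ F : Fin m → X → ℂ, (∀ j x, ‖F j x‖ ≤ 1) → ∀ x v, ‖∏ j, F j (τ j v x)‖ ≤ 1 := fun F hF x v =>
    norm_prod_le_one _ _ fun j _ => hF j _
  have hs : Tendsto (fun i => ∑ j, ∫ x, ‖f j x - g i j x‖ ∂μ) atTop (𝓝 0) := by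
    have := tendsto_finsetSum (Finset.univ : Finset (Fin m)) fun j _ => hfg j
    simpa using this
  have hdm : ∀ F : Fin m → X → ℂ, (∀ j, Measurable (F j)) → ∀ N,
      Measurable fun x => dd P (fun v => ∏ j, F j (τ j v x)) a N := fun F hF N =>
    dd_meas (Z := fun x v => ∏ j, F j (τ j v x)) (hZm F hF) N
  rw [Metric.tendsto_nhds]
  intro ε hε
  obtain ⟨i, hi⟩ := (hs.eventually (gt_mem_nhds (show (0 : ℝ) < ε / 8 by positivity))).exists
  have hdg : Tendsto (fun N : ℕ => ∫ x, ‖dd P (fun v => ∏ j, g i j (τ j v x)) a N‖ ∂μ) atTop (𝓝 (∫ _x : X, (0 : ℝ) ∂μ)) := by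
    refine tendsto_integral_of_dominated_convergence (fun _ => 2) (fun N => (hdm _ (hg i) N).norm.aestronglyMeasurable)
      (integrable_const _) (fun N => ae_of_all _ fun x => ?_) ?_
    · rw [norm_norm]
      exact dd_bd (hZ1 _ (hg1 i) x) N
    · filter_upwards [h i] with x hx
      have := hx.norm
      rwa [norm_zero] at this
  rw [integral_zero] at hdg
  filter_upwards [hdg.eventually (gt_mem_nhds (show (0 : ℝ) < ε / 4 by positivity))] with N hN
  have hmean := dd_mean (μ := μ) (P := P) (a := a) (Z := fun x v => ∏ j, f j (τ j v x))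
    (Z' := fun x v => ∏ j, g i j (τ j v x)) (E := fun x v => ∑ j, ‖f j (τ j v x) - g i j (τ j v x)‖)
    (C := ∑ _j : Fin m, 2) (e := ∑ j, ∫ x, ‖f j x - g i j x‖ ∂μ) (hZm _ hf) (hZm _ (hg i)) (hZ1 _ hf1) (hZ1 _ (hg1 i))
    (Finset.measurable_sum _ fun j _ => by
      have hm : Measurable fun x => ‖f j x - g i j x‖ := ((hf j).sub (hg i j)).norm
      exact hm.comp ((hτ j).meas.comp measurable_swap))
    (fun x v => by
      rw [abs_of_nonneg (Finset.sum_nonneg fun j _ => norm_nonneg _)]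
      refine Finset.sum_le_sum fun j _ => (norm_sub_le _ _).trans ?_
      have h5 := hf1 j (τ j v x)
      have h6 := hg1 i j (τ j v x)
      linarith)
    (fun x v => prod_diff_c _ _ _ (fun j _ => hf1 j _) (fun j _ => hg1 i j _))
    (fun v => mean_E hτ (E := fun j x => ‖f j x - g i j x‖) (fun j => ((hf j).sub (hg i j)).norm) (fun j x => by
      rw [abs_of_nonneg (norm_nonneg _)]
      refine (norm_sub_le _ _).trans ?_
      have h5 := hf1 j x
      have h6 := hg1 i j x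
      linarith) v) N
  have hIf : ∀ F : Fin m → X → ℂ, (∀ j, Measurable (F j)) → (∀ j x, ‖F j x‖ ≤ 1) →
      Integrable (fun x => dd P (fun v => ∏ j, F j (τ j v x)) a N) μ := fun F hF hF1 =>
    Integrable.of_bound (hdm F hF N).aestronglyMeasurable 2 (ae_of_all _ fun x => dd_bd (hZ1 _ hF1 x) N)
  rw [dist_zero_right, Real.norm_eq_abs, abs_of_nonneg (integral_nonneg fun x => by positivity)]
  have i1 : Integrable (fun x => 2 * ‖dd P (fun v => ∏ j, g i j (τ j v x)) a N‖) μ :=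
    (hIf _ (hg i) (hg1 i)).norm.const_mul 2
  have i2 : Integrable (fun x => 2 * ‖dd P (fun v => ∏ j, f j (τ j v x)) a N -
      dd P (fun v => ∏ j, g i j (τ j v x)) a N‖) μ := ((hIf _ hf hf1).sub (hIf _ (hg i) (hg1 i))).norm.const_mul 2
  have hle : ∫ x, ‖dd P (fun v => ∏ j, f j (τ j v x)) a N‖ ^ 2 ∂μ ≤
      ∫ x, (2 * ‖dd P (fun v => ∏ j, g i j (τ j v x)) a N‖ + 2 * ‖dd P (fun v => ∏ j, f j (τ j v x)) a N -
        dd P (fun v => ∏ j, g i j (τ j v x)) a N‖) ∂μ := by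
    refine integral_mono_of_nonneg (ae_of_all _ fun x => by positivity) (i1.add i2) (ae_of_all _ fun x => ?_)
    simp only
    have h5 := dd_bd (P := P) (a := a) (hZ1 _ hf1 x) N
    have h6 := norm_add_le (dd P (fun v => ∏ j, g i j (τ j v x)) a N) (dd P (fun v => ∏ j, f j (τ j v x)) a N -
        dd P (fun v => ∏ j, g i j (τ j v x)) a N)
    rw [add_sub_cancel] at h6
    have h7 := norm_nonneg (dd P (fun v => ∏ j, f j (τ j v x)) a N)
    nlinarith
  refine lt_of_le_of_lt hle ?_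
  rw [integral_add i1 i2, integral_const_mul, integral_const_mul]
  linarith

end mean

end Pool.Agent.U527.Et
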