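import Pool.Agent.U527.Et.Tr

set_option autoImplicit false

/-!
Approximation in `L¹` at a fixed time: almost every point.
-/

namespace Pool.Agent.U527.Et

open MeasureTheory Filter Finset
open Pool.Agent.Y957.MC (IsFlow flowInv smo)
open Pool.Agent.Y312.MC (flowInv_le ii_orb)
open Pool.Agent.U587.ET (prod_diff_c norm_prod_le_one exists_small)
open Pool.Agent.U587.DX (Sg lim_int)
open scoped ENNReal NNReal Topology

universe u

lemma ci_diff {Z Z' : ℝ → ℂ} {E : ℝ → ℝ} (hZ : Measurable Z) (hZ' : Measurable Z')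
    (h1 : ∀ v, ‖Z v‖ ≤ 1) (h1' : ∀ v, ‖Z' v‖ ≤ 1) (hE : ∀ s t : ℝ, IntervalIntegrable E volume s t)
    (h : ∀ v, ‖Z v - Z' v‖ ≤ E v) {V : ℝ} (hV : 0 < V) :
    ‖ci Z V - ci Z' V‖ ≤ (1 / V) * ∫ v in (0 : ℝ)..V, E v := by
  have hi : ∀ F : ℝ → ℂ, Measurable F → (∀ v, ‖F v‖ ≤ 1) → ∀ s t : ℝ, IntervalIntegrable F volume s t := by
    intro F hF hF1 s t
    refine (intervalIntegrable_const (c := (1 : ℝ))).mono_fun hF.aestronglyMeasurable (ae_of_all _ fun v => ?_)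
    rw [norm_one]
    exact hF1 v
  have e1 : ci Z V - ci Z' V = (1 / (V : ℂ)) * ∫ v in (0 : ℝ)..V, (Z v - Z' v) := by
    unfold ci
    rw [intervalIntegral.integral_sub (hi Z hZ h1 _ _) (hi Z' hZ' h1' _ _)]
    ring
  rw [e1, norm_mul, norm_div, norm_one, Complex.norm_real, Real.norm_of_nonneg hV.le]
  refine mul_le_mul_of_nonneg_left ?_ (by positivity)
  exact intervalIntegral.norm_integral_le_of_norm_le hV.le (ae_of_all _ fun v _ => h _) (hE _ _)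

lemma di_diff {P : Polynomial ℝ} {a : ℝ} {Z Z' : ℝ → ℂ} {E : ℝ → ℝ} (h : ∀ v, ‖Z v - Z' v‖ ≤ E v) (N : ℕ) :
    ‖di P Z a N - di P Z' a N‖ ≤ (1 / (N : ℝ)) * ∑ n ∈ Icc 1 N, E (a * P.eval (n : ℝ)) := by
  have e1 : di P Z a N - di P Z' a N = (1 / (N : ℂ)) * ∑ n ∈ Icc 1 N, (Z (a * P.eval (n : ℝ)) -
      Z' (a * P.eval (n : ℝ))) := by
    unfold di
    rw [Finset.sum_sub_distrib]
    ring
  rw [e1, norm_mul, norm_div, norm_one, Complex.norm_natCast]
  refine mul_le_mul_of_nonneg_left ?_ (by positivity)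
  exact (norm_sum_le _ _).trans (Finset.sum_le_sum fun n _ => h _)

variable {X : Type u} [mX : MeasurableSpace X] {μ : Measure X}

/-- transfer at almost every point -/
theorem tr_ae [IsProbabilityMeasure μ] {m : ℕ} {τ : Fin m → ℝ → X → X} (hτ : ∀ j, IsFlow μ (τ j))
    {P : Polynomial ℝ} (hd : 0 < P.natDegree) (hl : 0 < P.leadingCoeff) {a : ℝ} (ha : 0 < a)
    (hS : ∀ j, Sg μ (τ j) P a) {f : Fin m → X → ℂ} (hf : ∀ j, Measurable (f j)) (hf1 : ∀ j x, ‖f j x‖ ≤ 1)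
    {g : ℕ → Fin m → X → ℂ} (hg : ∀ i j, Measurable (g i j)) (hg1 : ∀ i j x, ‖g i j x‖ ≤ 1)
    (hgL : ∀ i j, ∃ L : ℝ, ∀ u v x, ‖g i j (τ j u x) - g i j (τ j v x)‖ ≤ L * |u - v|)
    (hfg : ∀ j, Tendsto (fun i => ∫ x, ‖f j x - g i j x‖ ∂μ) atTop (𝓝 0))
    (h : ∀ i, Good' μ P (fun x v => ∏ j, g i j (τ j v x)) a) :
    ∀ᵐ x ∂μ, ∀ L : ℂ, Tendsto (fun N : ℕ => di P (fun v => ∏ j, f j (τ j v x)) a N) atTop (𝓝 L) ↔
      Tendsto (fun V : ℝ => ci (fun v => ∏ j, f j (τ j v x)) V) atTop (𝓝 L) := by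
  obtain ⟨E, hE⟩ : ∃ E : ℕ → Fin m → X → ℝ, ∀ i j, E i j = fun x => ‖f j x - g i j x‖ := ⟨_, fun i j => rfl⟩
  have hEm : ∀ i j, Measurable (E i j) := fun i j => by rw [hE]; exact ((hf j).sub (hg i j)).norm
  have hEb : ∀ i j x, 0 ≤ E i j x ∧ E i j x ≤ 2 := fun i j x => by
    rw [hE]
    refine ⟨norm_nonneg _, (norm_sub_le _ _).trans ?_⟩
    linarith [hf1 j x, hg1 i j x]
  have hEb' : ∀ i j x, |E i j x| ≤ 2 := fun i j x => by
    rw [abs_of_nonneg (hEb i j x).1]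
    exact (hEb i j x).2
  have hE1 : ∀ j, Tendsto (fun i => ∫ x, E i j x ∂μ) atTop (𝓝 0) := by
    intro j
    refine (hfg j).congr fun i => ?_
    rw [hE]
  choose c1 hc1i hc10 hc1I hc1l using fun i j => lim_int (hτ j) (hS j) (hEm i j) (hEb i j)
  obtain ⟨c2, hc2⟩ : ∃ c2 : ℕ → Fin m → X → ℝ, ∀ i j, c2 i j = μ[E i j | flowInv (τ j)] := ⟨_, fun i j => rfl⟩
  have hcn : ∀ᵐ x ∂μ, ∀ i j, Tendsto (fun V : ℝ => smo (τ j) (E i j) V x) atTop (𝓝 (c2 i j x)) := by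
    rw [ae_all_iff]
    intro i
    rw [ae_all_iff]
    intro j
    rw [hc2]
    exact Pool.Agent.Y48.MC.flwb X μ (τ j) (E i j) (hτ j) (hEm i j) ⟨2, hEb' i j⟩
  have hdn : ∀ᵐ x ∂μ, ∀ i j, Tendsto (fun N : ℕ => (1 / (N : ℝ)) * ∑ n ∈ Icc 1 N,
      E i j (τ j (a * P.eval (n : ℝ)) x)) atTop (𝓝 (c1 i j x)) := by
    rw [ae_all_iff]
    intro i
    rw [ae_all_iff]
    intro j
    exact hc1l i j
  have hc2i : ∀ i j, Integrable (c2 i j) μ := fun i j => by rw [hc2]; exact integrable_condExp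
  have hc2I : ∀ i j, ∫ x, c2 i j x ∂μ = ∫ x, E i j x ∂μ := by
    intro i j
    rw [hc2, integral_condExp (flowInv_le (τ j))]
  have hp1 : ∀ᵐ x ∂μ, ∀ i j, 0 ≤ c1 i j x := by
    rw [ae_all_iff]
    intro i
    rw [ae_all_iff]
    intro j
    exact hc10 i j
  have hp2 : ∀ᵐ x ∂μ, ∀ i j, 0 ≤ c2 i j x := by
    rw [ae_all_iff]
    intro i
    rw [ae_all_iff]
    intro j
    rw [hc2]
    exact condExp_nonneg (ae_of_all _ fun x => (hEb i j _).1)
  obtain ⟨Ψ, hΨ⟩ : ∃ Ψ : ℕ → X → ℝ, ∀ i, Ψ i = fun x => ∑ j, (c1 i j x + c2 i j x) := ⟨_, fun i => rfl⟩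
  have hΨ0 : ∀ i, 0 ≤ᵐ[μ] Ψ i := by
    intro i
    filter_upwards [hp1, hp2] with x hx1 hx2
    rw [hΨ]
    exact Finset.sum_nonneg fun j _ => add_nonneg (hx1 i j) (hx2 i j)
  have hΨi : ∀ i, Integrable (Ψ i) μ := fun i => by
    rw [hΨ]
    exact integrable_finsetSum _ fun j _ => (hc1i i j).add (hc2i i j)
  have hΨint : ∀ i, ∫ x, Ψ i x ∂μ = ∑ j, (∫ x, E i j x ∂μ + ∫ x, E i j x ∂μ) := by
    intro i
    have h1 : ∫ x, Ψ i x ∂μ = ∫ x, ∑ j, (c1 i j x + c2 i j x) ∂μ := by rw [hΨ]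
    rw [h1, integral_finsetSum (Finset.univ : Finset (Fin m)) (f := fun j x => c1 i j x + c2 i j x)
      fun j _ => (hc1i i j).add (hc2i i j)]
    refine Finset.sum_congr rfl fun j _ => ?_
    rw [integral_add (hc1i i j) (hc2i i j), hc1I, hc2I]
  have hΨlim : Tendsto (fun i => ∫ x, Ψ i x ∂μ) atTop (𝓝 0) := by
    simp only [hΨint]
    have := tendsto_finsetSum (Finset.univ : Finset (Fin m)) fun j _ => (hE1 j).add (hE1 j)
    simpa using this
  filter_upwards [ae_all_iff.2 h, hdn, hcn, exists_small hΨ0 hΨi hΨlim, hp1, hp2] with x hx1 hx2 hx3 hx4 hx5 hx6 L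
  have hfm : Measurable fun v : ℝ => ∏ j, f j (τ j v x) :=
    Finset.measurable_prod _ fun j _ => (hf j).comp ((hτ j).meas.comp (measurable_id.prodMk measurable_const))
  have hgm : ∀ i, Measurable fun v : ℝ => ∏ j, g i j (τ j v x) := fun i =>
    Finset.measurable_prod _ fun j _ => (hg i j).comp ((hτ j).meas.comp (measurable_id.prodMk measurable_const))
  have hfb : ∀ v, ‖∏ j, f j (τ j v x)‖ ≤ 1 := fun v => norm_prod_le_one _ _ fun j _ => hf1 j _
  have hgb : ∀ i v, ‖∏ j, g i j (τ j v x)‖ ≤ 1 := fun i v => norm_prod_le_one _ _ fun j _ => hg1 i j _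
  have hEii : ∀ i j, ∀ s t : ℝ, IntervalIntegrable (fun v => E i j (τ j v x)) volume s t := fun i j s t =>
    ii_orb (hτ j) (hEm i j) (hEb' i j) x s t
  have hDi : ∀ i, ∀ s t : ℝ, IntervalIntegrable (fun v => ∑ j, E i j (τ j v x)) volume s t := by
    intro i s t
    have h5 := IntervalIntegrable.sum (Finset.univ : Finset (Fin m)) (f := fun j v => E i j (τ j v x))
      (μ := volume) (a := s) (b := t) (fun j _ => hEii i j s t)
    have h6 : (fun v => ∑ j, E i j (τ j v x)) = ∑ j : Fin m, fun v => E i j (τ j v x) := by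
      ext v
      simp only [Finset.sum_apply]
    rw [h6]
    exact h5
  have hpt : ∀ i v, ‖∏ j, f j (τ j v x) - ∏ j, g i j (τ j v x)‖ ≤ ∑ j, E i j (τ j v x) := by
    intro i v
    refine (prod_diff_c _ _ _ (fun j _ => hf1 j _) (fun j _ => hg1 i j _)).trans ?_
    refine Finset.sum_le_sum fun j _ => ?_
    rw [hE]
  refine two_way P hd hl ha (Ff := fun v => ∏ j, f j (τ j v x)) (Fg := fun i v => ∏ j, g i j (τ j v x))
    (fun i => ?_) hgb (ψ := fun i => Ψ i x) hx4 (fun i => ?_) (fun i δ hδ => ?_) (fun i δ hδ => ?_) (fun i => ?_) L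
  · obtain ⟨K, hK⟩ := nc_prod hτ (hg i) (hg1 i) (hgL i)
    have hlip : LipschitzWith (Real.toNNReal K) (fun v => ∏ j, g i j (τ j v x)) := by
      refine LipschitzWith.of_dist_le_mul fun u v => ?_
      rw [dist_eq_norm, Real.dist_eq, Real.coe_toNNReal _ hK.lip0]
      exact hK.lip x u v
    exact hlip.continuous
  · rw [hΨ]
    exact Finset.sum_nonneg fun j _ => add_nonneg (hx5 i j) (hx6 i j)
  · have h1 : Tendsto (fun V : ℝ => ∑ j, smo (τ j) (E i j) V x) atTop (𝓝 (∑ j, c2 i j x)) :=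
      tendsto_finsetSum _ fun j _ => hx3 i j
    have h2 : ∑ j, c2 i j x < Ψ i x + δ := by
      have h7 : 0 ≤ ∑ j, c1 i j x := Finset.sum_nonneg fun j _ => hx5 i j
      rw [hΨ]
      simp only
      rw [Finset.sum_add_distrib]
      linarith
    filter_upwards [h1.eventually (gt_mem_nhds h2), eventually_gt_atTop 0] with V hV hV0
    refine (ci_diff hfm (hgm i) hfb (hgb i) (hDi i) (hpt i) hV0).trans ((le_of_eq ?_).trans hV.le)
    rw [intervalIntegral.integral_finsetSum fun j _ => hEii i j 0 V, Finset.mul_sum]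
    rfl
  · have h1 : Tendsto (fun N : ℕ => ∑ j, (1 / (N : ℝ)) * ∑ n ∈ Icc 1 N, E i j (τ j (a * P.eval (n : ℝ)) x)) atTop
        (𝓝 (∑ j, c1 i j x)) := tendsto_finsetSum _ fun j _ => hx2 i j
    have h2 : ∑ j, c1 i j x < Ψ i x + δ := by
      have h7 : 0 ≤ ∑ j, c2 i j x := Finset.sum_nonneg fun j _ => hx6 i j
      rw [hΨ]
      simp only
      rw [Finset.sum_add_distrib]
      linarith
    filter_upwards [h1.eventually (gt_mem_nhds h2)] with N hN
    refine (di_diff (hpt i) N).trans ((le_of_eq ?_).trans hN.le)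
    rw [Finset.sum_comm, Finset.mul_sum]
  · refine (hx1 i).congr fun N => ?_
    exact dd_eq P (fun v => ∏ j, g i j (τ j v x)) a N

end Pool.Agent.U527.Et
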